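import Pool.Agent.Helper78.BO.RTPa
import Pool.Agent.Helper53.BO.Count
import Pool.Agent.Helper53.BO.Deg

namespace Pool.Agent.Helper78.BO

open Pool.Agent.Helper53.BO

theorem rtp : RTP 2000000 := rtp_of stcount_proof stgreedy_proof stdeg_proof

theorem rtp60 : Pool.Agent.Helper60.BO.RTP 2000000 :=
  rtp60_of stcount_proof stgreedy_proof stdeg_proof

end Pool.Agent.Helper78.BO
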