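import Pool.Agent.Helper78.BO.Walk
import Pool.Agent.Helper98.BO.STst

/-!
The walk with the two families of tests used in the round theorem (entries of square at most
one, columns of norm^2 at most `T`, rows of norm^2 at most `B`).
-/

namespace Pool.Agent.Helper78.BO

open Real Pool.Agent.Helper98.BO
open scoped Classical

variable {V J : Type} [Fintype V] [Fintype J]

omit [Fintype V] [Fintype J] in
theorem sepd_iff (c : J → V → ℝ) (al : ℝ) (A : Finset V) : Sepd c al A ↔ Ind (Ad c al) A := by
  unfold Sepd Ind Ad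
  constructor
  · rintro h a ha b hb hab ⟨j, hj⟩
    exact h a ha b hb hab j hj
  · intro h a ha b hb hab j hj
    exact h a ha b hb hab ⟨j, hj⟩

/-- factor of the tests of the tiny parts -/
noncomputable def xf (c : J → V → ℝ) (al : ℝ) (r : J) (u : V) : ℝ :=
  if c r u ^ 2 ≤ al then exp (c r u ^ 2 / al) - 1 else 0

omit [Fintype V] [Fintype J] in
theorem xf_nonneg (c : J → V → ℝ) {al : ℝ} (hal : 0 < al) (r : J) (u : V) : 0 ≤ xf c al r u := by
  unfold xf
  split_ifs
  · have : 1 ≤ exp (c r u ^ 2 / al) := one_le_exp (by positivity)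
    linarith
  · exact le_refl _

omit [Fintype V] [Fintype J] in
theorem xf_le (c : J → V → ℝ) {al : ℝ} (hal : 0 < al) (r : J) (u : V) :
    xf c al r u ≤ 2 * c r u ^ 2 / al := by
  unfold xf
  have h0 : 0 ≤ c r u ^ 2 / al := by positivity
  split_ifs with h
  · have h1 : c r u ^ 2 / al ≤ 1 := by rw [div_le_one hal]; exact h
    have h2 := abs_exp_sub_one_le (x := c r u ^ 2 / al) (by rw [abs_of_nonneg h0]; exact h1)
    rw [abs_of_nonneg h0] at h2
    have h3 := le_abs_self (exp (c r u ^ 2 / al) - 1)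
    have e : 2 * c r u ^ 2 / al = 2 * (c r u ^ 2 / al) := by ring
    linarith
  · have e : 2 * c r u ^ 2 / al = 2 * (c r u ^ 2 / al) := by ring
    linarith

theorem tests (c : J → V → ℝ) (z : V → ℝ) {B N T κ ν aw al : ℝ} {k : ℕ}
    (W : Finset (Finset V)) (hN : (Fintype.card V : ℝ) + Fintype.card J + 3 ≤ N)
    (hcol : ∀ i, ∑ j, c j i ^ 2 ≤ T) (hc : ∀ j i, c j i ^ 2 ≤ 1)
    (hrow : ∀ j, ∑ i, c j i ^ 2 ≤ B) (hz : ∀ i, |z i| ≤ 1) (hκ1 : 1 ≤ κ) (hκ : 24 * T ≤ κ)
    (hT : 0 ≤ T) (hν : 0 ≤ ν) (hν1 : ν ≤ 1) (hal : 0 < al) (haw : al ≤ aw)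
    (haL : 8 * aw * log (8 * N) ^ 2 ≤ κ) (hW : ∀ S ∈ W, k + 1 ≤ S.card ∧ Ind (Ad c aw) S)
    (hWc : W.card * exp (-(ν * (κ / 2 - 6 * T) * (k + 1))) ≤ 1 / 8)
    (hB : 2 * B / al * exp (-(ν * (κ / 2 - 6 * T))) ≤ 1) :
    ∃ y : V → ℝ, (∀ i, |y i| ≤ 1) ∧ (∀ i, |z i| = 1 → y i = z i) ∧
      (∀ j, |∑ i, c j i * (y i - z i)| ≤ 130 * √κ * (1 + √ν * (1 + log (1 + ν * κ)))) ∧
      (∀ S ∈ W, ∃ u ∈ S, |y u| = 1) ∧
      ∀ r, ∀ A : Finset V, (∀ u ∈ A, |y u| < 1) → Ind (Ad c aw) A →
        ∑ u ∈ A, (if c r u ^ 2 ≤ al then c r u ^ 2 else 0) ≤ al * log (64 * N) := by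
  have hcV : (0 : ℝ) ≤ Fintype.card V := Nat.cast_nonneg _
  have hcJ : (0 : ℝ) ≤ Fintype.card J := Nat.cast_nonneg _
  have hN3 : 3 ≤ N := by linarith
  have hN0 : 0 < N := by linarith
  set β : ℝ := ν * (κ / 2 - 6 * T) with hβ
  have hβ0 : 0 ≤ β := mul_nonneg hν (by linarith)
  have he8 : exp (log (8 * N)) = 8 * N := exp_log (by linarith)
  have hL1 : 1 ≤ log (8 * N) := by
    rw [le_log_iff_exp_le (by linarith)]
    have := Real.exp_one_lt_d9
    linarith
  -- tests
  set At : (W ⊕ (J × Finset V)) → Finset V := fun t => match t with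
    | Sum.inl S => S.1
    | Sum.inr q => if Ind (Ad c aw) q.2 then q.2 else ∅ with hAt
  set om : (W ⊕ (J × Finset V)) → ℝ := fun t => match t with
    | Sum.inl _ => 1
    | Sum.inr q => if Ind (Ad c aw) q.2 then 1 / (64 * N) * ∏ u ∈ q.2, xf c al q.1 u else 0
    with hom
  have hA : ∀ t, Sepd c aw (At t) := by
    intro t
    rw [sepd_iff]
    rcases t with S | q
    · exact (hW S.1 S.2).2
    · simp only [hAt]
      split_ifs with h
      · exact h
      · intro a ha
        exact absurd ha (Finset.notMem_empty a)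
  have hom0 : ∀ t, 0 ≤ om t := by
    intro t
    rcases t with S | q
    · exact zero_le_one
    · simp only [hom]
      split_ifs
      · exact mul_nonneg (by positivity) (Finset.prod_nonneg fun u _ => xf_nonneg c hal _ u)
      · exact le_refl _
  have hsum : ∑ t, om t * exp (-(ν * (κ / 2 - 6 * T) * (At t).card)) ≤ 1 / 4 := by
    rw [Fintype.sum_sum_type]
    have p1 : ∑ S : W, om (Sum.inl S) * exp (-(ν * (κ / 2 - 6 * T) * (At (Sum.inl S)).card))
        ≤ 1 / 8 := by
      calc ∑ S : W, om (Sum.inl S) * exp (-(ν * (κ / 2 - 6 * T) * (At (Sum.inl S)).card))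
          ≤ ∑ _S : W, exp (-(ν * (κ / 2 - 6 * T) * (k + 1))) := by
            refine Finset.sum_le_sum fun S _ => ?_
            simp only [hom, hAt, one_mul]
            apply exp_le_exp.2
            have h1 : ((k + 1 : ℕ) : ℝ) ≤ (S.1.card : ℝ) := by exact_mod_cast (hW S.1 S.2).1
            push_cast at h1
            have h2 := mul_le_mul_of_nonneg_left h1 hβ0
            rw [hβ] at h2
            linarith
        _ = W.card * exp (-(ν * (κ / 2 - 6 * T) * (k + 1))) := by
            rw [Finset.sum_const, nsmul_eq_mul]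
            simp
        _ ≤ 1 / 8 := hWc
    have p2 : ∑ q : J × Finset V, om (Sum.inr q)
        * exp (-(ν * (κ / 2 - 6 * T) * (At (Sum.inr q)).card)) ≤ 1 / 8 := by
      rw [Fintype.sum_prod_type]
      have h1 : ∀ r : J, ∑ A : Finset V, om (Sum.inr (r, A))
          * exp (-(ν * (κ / 2 - 6 * T) * (At (Sum.inr (r, A))).card)) ≤ 1 / (64 * N) * exp 1 := by
        intro r
        calc ∑ A : Finset V, om (Sum.inr (r, A))
              * exp (-(ν * (κ / 2 - 6 * T) * (At (Sum.inr (r, A))).card))
            ≤ ∑ A : Finset V, 1 / (64 * N) * ∏ u ∈ A, (xf c al r u * exp (-β)) := by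
              refine Finset.sum_le_sum fun A _ => ?_
              simp only [hom, hAt]
              split_ifs with h
              · rw [Finset.prod_mul_distrib, Finset.prod_const, ← exp_nat_mul]
                refine le_of_eq ?_
                rw [mul_assoc]
                congr 3
                ring
              · rw [zero_mul]
                exact mul_nonneg (by positivity) (Finset.prod_nonneg fun u _ =>
                  mul_nonneg (xf_nonneg c hal _ u) (exp_pos _).le)
          _ = 1 / (64 * N) * ∏ u : V, (1 + xf c al r u * exp (-β)) := by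
              rw [← Finset.mul_sum, Finset.prod_one_add, Finset.powerset_univ]
          _ ≤ 1 / (64 * N) * exp 1 := by
              apply mul_le_mul_of_nonneg_left _ (by positivity)
              calc ∏ u : V, (1 + xf c al r u * exp (-β))
                  ≤ ∏ u : V, exp (xf c al r u * exp (-β)) := by
                    refine Finset.prod_le_prod (fun u _ => ?_) fun u _ => ?_
                    · have := mul_nonneg (xf_nonneg c hal r u) (exp_pos (-β)).le
                      linarith
                    · have := add_one_le_exp (xf c al r u * exp (-β))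
                      linarith
                _ = exp (∑ u : V, xf c al r u * exp (-β)) := by rw [exp_sum]
                _ ≤ exp 1 := by
                    apply exp_le_exp.2
                    refine le_trans ?_ hB
                    rw [← Finset.sum_mul]
                    apply mul_le_mul_of_nonneg_right _ (exp_pos _).le
                    calc ∑ u : V, xf c al r u ≤ ∑ u : V, 2 * c r u ^ 2 / al :=
                          Finset.sum_le_sum fun u _ => xf_le c hal r u
                      _ = 2 * (∑ u : V, c r u ^ 2) / al := by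
                          rw [← Finset.sum_div, ← Finset.mul_sum]
                      _ ≤ 2 * B / al := by
                          apply div_le_div_of_nonneg_right _ hal.le
                          linarith [hrow r]
      refine (Finset.sum_le_sum fun r _ => h1 r).trans ?_
      rw [Finset.sum_const, nsmul_eq_mul, Finset.card_univ]
      have h2 : (Fintype.card J : ℝ) ≤ N := by linarith
      have h3 := Real.exp_one_lt_d9
      have h4 : (Fintype.card J : ℝ) * (1 / (64 * N) * exp 1) ≤ N * (1 / (64 * N) * exp 1) :=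
        mul_le_mul_of_nonneg_right h2 (by positivity)
      have h5 : N * (1 / (64 * N) * exp 1) = exp 1 / 64 := by field_simp
      linarith
    linarith
  obtain ⟨y, y1, y2, y3, y4⟩ := walk' c hcol hc hκ1 hκ hT hν hν1 (hal.le.trans haw) hL1
    (by rw [he8]; linarith) (by rw [he8]; linarith) haL At hA om hom0 hsum hz
  refine ⟨y, y1, y2, y3, fun S hS => ?_, fun r A hAF hAI => ?_⟩
  · by_contra hcon
    push Not at hcon
    have h1 : ∀ v ∈ S, |y v| < 1 := fun v hv => lt_of_le_of_ne (y1 v) (hcon v hv)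
    have h2 := y4 {Sum.inl ⟨S, hS⟩} (fun t ht => by
      rw [Finset.mem_singleton] at ht
      rw [ht]
      exact h1)
    rw [Finset.sum_singleton] at h2
    simp only [hom] at h2
    exact absurd h2 (lt_irrefl _)
  · have h1 := y4 (A.powerset.map ⟨fun A' => Sum.inr (r, A'), fun a b hab => by
      simpa using hab⟩) (fun t ht => by
        rw [Finset.mem_map] at ht
        obtain ⟨A', hA', rfl⟩ := ht
        have hsub : A' ⊆ A := Finset.mem_powerset.1 hA'
        intro v hv
        simp only [hAt, Function.Embedding.coeFn_mk] at hv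
        split_ifs at hv
        · exact hAF v (hsub hv)
        · exact absurd hv (Finset.notMem_empty v))
    rw [Finset.sum_map] at h1
    have h1' : ∑ A' ∈ A.powerset, 1 / (64 * N) * ∏ u ∈ A', xf c al r u < 1 := by
      refine lt_of_le_of_lt (le_of_eq ?_) h1
      refine Finset.sum_congr rfl fun A' hA' => ?_
      have hsub : A' ⊆ A := Finset.mem_powerset.1 hA'
      have hI : Ind (Ad c aw) A' := fun a ha b hb hab => hAI a (hsub ha) b (hsub hb) hab
      simp only [hom, Function.Embedding.coeFn_mk, if_pos hI]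
    rw [← Finset.mul_sum, ← Finset.prod_one_add] at h1'
    have h2 : ∏ u ∈ A, (1 + xf c al r u)
        = exp (∑ u ∈ A, (if c r u ^ 2 ≤ al then c r u ^ 2 else 0) / al) := by
      rw [exp_sum]
      refine Finset.prod_congr rfl fun u _ => ?_
      unfold xf
      split_ifs
      · ring
      · simp
    rw [h2, ← Finset.sum_div] at h1'
    set Sg := ∑ u ∈ A, (if c r u ^ 2 ≤ al then c r u ^ 2 else 0) with hSg
    have h3 : exp (Sg / al) < 64 * N := by
      have h4 : 1 / (64 * N) * exp (Sg / al) < 1 := h1'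
      rw [one_div, inv_mul_lt_iff₀ (by positivity), mul_one] at h4
      exact h4
    have h5 : Sg / al < log (64 * N) := by
      rw [lt_log_iff_exp_lt (by positivity)]
      exact h3
    rw [div_lt_iff₀ hal] at h5
    linarith

/-- same statement as `STtests` of helper98, without the number of levels -/
def STtests2 : Prop := ∀ (V J : Type) [Fintype V] [Fintype J] (c : J → V → ℝ) (z : V → ℝ)
  (B N κ aw al : ℝ) (k : ℕ) (W : Finset (Finset V)),
  0 ≤ B → (Fintype.card V : ℝ) + Fintype.card J + 3 ≤ N →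
  (∀ i, ∑ j, c j i ^ 2 ≤ 1) → (∀ j, ∑ i, c j i ^ 2 ≤ B) → (∀ i, |z i| ≤ 1) →
  24 ≤ κ → 0 < al → al ≤ aw → aw * Real.log (8 * N) ^ 2 ≤ 1 →
  (∀ T ∈ W, k + 1 ≤ T.card ∧ Ind (Ad c aw) T) →
  W.card * Real.exp (-((κ / 2 - 6) * (k + 1))) ≤ 1 / 8 →
  2 * B / al * Real.exp (6 - κ / 2) ≤ 1 →
  ∃ y : V → ℝ, (∀ i, |y i| ≤ 1) ∧
    (∀ j, |∑ i, c j i * (y i - z i)| ≤ 260 * √κ * (1 + log (1 + κ))) ∧
    (∀ T ∈ W, ∃ u ∈ T, |y u| = 1) ∧
    ∀ r, ∀ A : Finset V, (∀ u ∈ A, |y u| < 1) → Ind (Ad c aw) A →
      ∑ u ∈ A, (if c r u ^ 2 ≤ al then c r u ^ 2 else 0) ≤ al * Real.log (64 * N)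

theorem sttests2 : STtests2 := by
  intro V J _ _ c z B N κ aw al k W hB hN hcol hrow hz hκ hal haw haL hW hWc hBk
  have hc : ∀ j i, c j i ^ 2 ≤ 1 := fun j i =>
    (Finset.single_le_sum (f := fun j => c j i ^ 2) (fun k _ => sq_nonneg _)
      (Finset.mem_univ j)).trans (hcol i)
  obtain ⟨y, y1, -, y3, y4, y5⟩ := tests c z (B := B) (N := N) (T := 1) (κ := κ) (ν := 1)
    (aw := aw) (al := al) (k := k) W hN hcol hc hrow hz (by linarith) (by linarith) zero_le_one
    zero_le_one le_rfl hal haw (by linarith) hW (by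
      refine le_trans (le_of_eq ?_) hWc
      congr 3
      ring) (by
      refine le_trans (le_of_eq ?_) hBk
      congr 2
      ring)
  refine ⟨y, y1, fun j => (y3 j).trans ?_, y4, y5⟩
  rw [sqrt_one, one_mul, one_mul]
  have h1 : 0 ≤ √κ := sqrt_nonneg _
  have h2 : 0 ≤ log (1 + κ) := log_nonneg (by linarith)
  nlinarith [mul_nonneg h1 h2]

end Pool.Agent.Helper78.BO
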