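import Pool.Agent.Helper78.BO.Walk

/-!
Rounding of a real matrix with entries of square at most one and columns of norm^2 at most `T`:
error `C (sqrt T + sqrt L (1 + log L))`, `L = log (4 n)`, `n` = number of columns.
-/

namespace Pool.Agent.Helper78.BO

open Real
open scoped Classical

/-- numeric bound of the error of the walk -/
theorem num_w {T Λ : ℝ} (hT : 0 ≤ T) (hΛ : 1 ≤ Λ) :
    130 * √(24 * max T Λ) * (1 + √(Λ / max T Λ) * (1 + log (1 + Λ / max T Λ * (24 * max T Λ))))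
      ≤ 4000 * (√T + √Λ * (1 + log Λ)) := by
  set T1 := max T Λ with hT1
  have hΛ0 : 0 < Λ := by linarith
  have hT10 : 0 < T1 := lt_max_of_lt_right hΛ0
  have hs1 : √T1 ≤ √T + √Λ := by
    rw [hT1]
    rcases le_total T Λ with h | h
    · rw [max_eq_right h]; linarith [sqrt_nonneg T]
    · rw [max_eq_left h]; linarith [sqrt_nonneg Λ]
  have h24 : √24 ≤ (49 / 10 : ℝ) := by
    rw [sqrt_le_left (by norm_num)]; norm_num
  have h24' : (0 : ℝ) ≤ √24 := sqrt_nonneg _
  have e1 : √(24 * T1) = √24 * √T1 := sqrt_mul (by norm_num) _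
  have e2 : √(24 * T1) * √(Λ / T1) = √24 * √Λ := by
    rw [← sqrt_mul (by positivity), ← sqrt_mul (by norm_num)]
    congr 1
    field_simp
  have e3 : Λ / T1 * (24 * T1) = 24 * Λ := by field_simp
  have hlogΛ : 0 ≤ log Λ := log_nonneg hΛ
  have h25 : log (25 : ℝ) ≤ 33 / 10 := by
    have h2 := Real.log_two_lt_d9
    have h4 : log (25 : ℝ) ≤ log (2 ^ 5) / 1 := by
      rw [div_one]; exact log_le_log (by norm_num) (by norm_num)
    rw [log_pow] at h4
    push_cast at h4
    have h5 : (25 : ℝ) ≤ exp (33 / 10) := by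
      have h6 := Real.exp_one_gt_d9
      have h7 : exp (33 / 10 : ℝ) = exp 1 ^ 3 * exp (3 / 10) := by
        rw [← exp_nat_mul, ← exp_add]; norm_num
      have h8 : (1 + 3 / 10 : ℝ) ≤ exp (3 / 10) := by linarith [add_one_le_exp (3 / 10 : ℝ)]
      have h9 : (2.7182 : ℝ) ^ 3 ≤ exp 1 ^ 3 := pow_le_pow_left₀ (by norm_num) (by linarith) 3
      rw [h7]
      calc (25 : ℝ) ≤ 2.7182 ^ 3 * (1 + 3 / 10) := by norm_num
        _ ≤ exp 1 ^ 3 * exp (3 / 10) := mul_le_mul h9 h8 (by norm_num) (by positivity)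
    rw [log_le_iff_le_exp (by norm_num)]
    exact h5
  have h10 : log (1 + 24 * Λ) ≤ 33 / 10 + log Λ := by
    have h11 : log (1 + 24 * Λ) ≤ log (25 * Λ) := log_le_log (by linarith) (by linarith)
    rw [log_mul (by norm_num) (by linarith)] at h11
    linarith
  have hsT : 0 ≤ √T := sqrt_nonneg _
  have hsΛ : 0 ≤ √Λ := sqrt_nonneg _
  rw [e3]
  have e4 : 130 * √(24 * T1) * (1 + √(Λ / T1) * (1 + log (1 + 24 * Λ)))
      = 130 * (√(24 * T1) + (√(24 * T1) * √(Λ / T1)) * (1 + log (1 + 24 * Λ))) := by ring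
  rw [e4, e2, e1]
  have h12 : √24 * √T1 ≤ 49 / 10 * (√T + √Λ) := mul_le_mul h24 hs1 (sqrt_nonneg _) (by norm_num)
  have h13 : √24 * √Λ * (1 + log (1 + 24 * Λ)) ≤ 49 / 10 * √Λ * (1 + (33 / 10 + log Λ)) := by
    apply mul_le_mul _ (by linarith) _ (by positivity)
    · exact mul_le_mul_of_nonneg_right h24 hsΛ
    · have : 0 ≤ log (1 + 24 * Λ) := log_nonneg (by linarith)
      linarith
  have h14 : 0 ≤ √Λ * log Λ := mul_nonneg hsΛ hlogΛ
  nlinarith

variable {V J : Type*} [Fintype V] [Fintype J]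

/-- Theorem III for real matrices -/
theorem full (c : J → V → ℝ) {T Λ : ℝ} (hcol : ∀ i, ∑ j, c j i ^ 2 ≤ T)
    (hc : ∀ j i, c j i ^ 2 ≤ 1) (hT : 0 ≤ T) (hΛ : 1 ≤ Λ)
    (hΛV : 4 * (Fintype.card V : ℝ) ≤ exp Λ) {z : V → ℝ} (hz : ∀ i, |z i| ≤ 1) :
    ∃ y : V → ℝ, (∀ i, |y i| = 1) ∧ (∀ i, |z i| = 1 → y i = z i) ∧
      ∀ j, |∑ i, c j i * (y i - z i)| ≤ 4000 * (√T + √Λ * (1 + log Λ)) := by
  set T1 := max T Λ with hT1
  have hΛ0 : 0 < Λ := by linarith
  have hT10 : 0 < T1 := lt_max_of_lt_right hΛ0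
  have hT1T : T ≤ T1 := le_max_left _ _
  have hT1Λ : Λ ≤ T1 := le_max_right _ _
  set L : ℝ := 1 + 8 * Fintype.card V + 8 * Fintype.card J with hL
  have hcV : (0 : ℝ) ≤ Fintype.card V := Nat.cast_nonneg _
  have hcJ : (0 : ℝ) ≤ Fintype.card J := Nat.cast_nonneg _
  have hLe : L ≤ exp L := by linarith [add_one_le_exp L]
  obtain ⟨y, y1, y2, y3, y4⟩ := walk' (X := V) c (T := T1) (κ := 24 * T1) (ν := Λ / T1) (al := 0)
    (L := L) (fun i => (hcol i).trans hT1T) hc (by linarith) le_rfl hT10.le (by positivity)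
    (by rw [div_le_one hT10]; exact hT1Λ) le_rfl (by linarith) (by linarith) (by linarith)
    (by rw [mul_zero, zero_mul]; positivity) (fun i => {i}) (fun i u hu v hv huv => by
      rw [Finset.mem_singleton] at hu hv
      exact absurd (hu.trans hv.symm) huv) (fun _ => 1) (fun _ => zero_le_one) (by
      have e1 : ∀ i : V, (1 : ℝ) * exp (-(Λ / T1 * (24 * T1 / 2 - 6 * T1)
          * (({i} : Finset V).card : ℝ))) = exp (-(6 * Λ)) := by
        intro i
        rw [Finset.card_singleton, one_mul]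
        congr 1
        push_cast
        field_simp
        ring
      simp only [e1]
      rw [Finset.sum_const, nsmul_eq_mul, Finset.card_univ]
      have h1 : exp (-(6 * Λ)) ≤ exp (-Λ) := exp_le_exp.2 (by linarith)
      have h2 : exp Λ * exp (-Λ) = 1 := by rw [← exp_add]; simp
      have h3 := mul_le_mul_of_nonneg_right hΛV (exp_pos (-Λ)).le
      have h4 := mul_le_mul_of_nonneg_left h1 hcV
      linarith) hz
  refine ⟨y, fun i => ?_, y2, fun j => (y3 j).trans (num_w hT hΛ)⟩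
  by_contra hne
  have hlt : |y i| < 1 := lt_of_le_of_ne (y1 i) hne
  have h1 := y4 {i} (fun t ht v hv => by
    rw [Finset.mem_singleton] at ht hv
    rw [hv, ht]
    exact hlt)
  rw [Finset.sum_singleton] at h1
  exact absurd h1 (lt_irrefl _)

end Pool.Agent.Helper78.BO
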