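import Pool.Agent.Helper98.BO.ST
import Pool.Agent.Helper78.BO.Tests
import Pool.Agent.Helper78.BO.FLP

/-!
Round theorem, form with entries of square at most one, columns of norm^2 at most `T`, rows of
norm^2 at most `B`: error `C (sqrt T + sqrt L (1 + log L))`, `L = 1 + log B + log log N`.
-/

namespace Pool.Agent.Helper78.BO

open Pool.Agent.Helper50.BO Pool.Agent.Helper98.BO Real

/-- the round theorem -/
def RTP (C : ℝ) : Prop := ∀ (V J : Type) [Fintype V] [Fintype J] (c : J → V → ℝ) (z : V → ℝ)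
  (B N T : ℝ), 1 ≤ B → T ≤ B → 0 ≤ T → (Fintype.card V : ℝ) + Fintype.card J + 3 ≤ N →
  (∀ i, ∑ j, c j i ^ 2 ≤ T) → (∀ j i, c j i ^ 2 ≤ 1) → (∀ j, ∑ i, c j i ^ 2 ≤ B) →
  (∀ i, |z i| ≤ 1) →
  ∃ y : V → ℝ, (∀ i, |y i| = 1) ∧ (∀ i, |z i| = 1 → y i = z i) ∧
    ∀ j, |∑ i, c j i * (y i - z i)| ≤ C * (√T + √(LL B N) * (1 + log (LL B N)))

/-- parameters -/
theorem num_parP {B N P l8 al D Λ : ℝ} {k : ℕ} (hB : 1 ≤ B) (hN : 3 ≤ N) (hl8 : l8 = log (8 * N))
    (hP : P = 1 + B ^ 2 * l8 ^ 4) (hal : al = 1 / (32 * P ^ 2 * l8 ^ 3))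
    (hD : D = 1 + B ^ 2 / al ^ 2) (hΛ : Λ = 1 + 6 * log D) (hk : k = ⌈l8⌉₊) :
    3 ≤ l8 ∧ 1 ≤ P ∧ 0 < al ∧ al ≤ 1 / l8 ^ 2 ∧ 1 ≤ D ∧ 1 ≤ Λ ∧ l8 ≤ k ∧ (k : ℝ) ≤ 2 * l8 ∧
      log (64 * N) ≤ 2 * l8 ∧ 2 * B / al * exp (-Λ) ≤ 1 ∧ Λ ≤ 300 * LL B N ∧
      8 * P * l8 ≤ exp Λ := by
  obtain ⟨n1, n2, n3, n4⟩ := num_N hN
  rw [← hl8] at n1 n3 n4
  have hB0 : 0 < B := by linarith
  have hl0 : 0 < l8 := by linarith
  have hl1 : 1 ≤ l8 := by linarith
  have hlogB : 0 ≤ log B := log_nonneg hB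
  have hlogl : 0 ≤ log l8 := log_nonneg (by linarith)
  have hLL : LL B N = 1 + log B + log (log N) := rfl
  have hLL1 : 1 ≤ LL B N := by rw [hLL]; linarith
  have hl8L : log l8 ≤ 11 / 10 * LL B N := by rw [hLL]; linarith
  have hBL : log B ≤ LL B N := by rw [hLL]; linarith
  have hP1 : 1 ≤ P := by rw [hP]; have := mul_pos (pow_pos hB0 2) (pow_pos hl0 4); linarith
  have hP0 : 0 < P := by linarith
  have hal0 : 0 < al := by rw [hal]; positivity
  have q1 : 1 ≤ P ^ 2 := one_le_pow₀ hP1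
  have q2 : 1 ≤ l8 ^ 2 := one_le_pow₀ hl1
  have hden : l8 ^ 2 ≤ 32 * P ^ 2 * l8 ^ 3 := by
    have e3 : 1 ≤ P ^ 2 * l8 := by nlinarith
    calc l8 ^ 2 = 1 * l8 ^ 2 := (one_mul _).symm
      _ ≤ (32 * (P ^ 2 * l8)) * l8 ^ 2 := by
          apply mul_le_mul_of_nonneg_right _ (by positivity)
          linarith
      _ = _ := by ring
  have hal1 : al ≤ 1 / l8 ^ 2 := by
    rw [hal]
    exact one_div_le_one_div_of_le (by positivity) hden
  have hl2 : 1 / l8 ^ 2 ≤ 1 := by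
    rw [div_le_one (by positivity)]; exact q2
  have hal2 : al ≤ 1 := hal1.trans hl2
  have hD1 : 1 ≤ D := by rw [hD]; have := div_pos (pow_pos hB0 2) (pow_pos hal0 2); linarith
  have hD0 : 0 < D := by linarith
  have hlogD : 0 ≤ log D := log_nonneg hD1
  have hΛ1 : 1 ≤ Λ := by rw [hΛ]; linarith
  have hk1 : l8 ≤ k := by rw [hk]; exact Nat.le_ceil _
  have hk2 : (k : ℝ) ≤ 2 * l8 := by
    have := Nat.ceil_lt_add_one hl0.le
    rw [← hk] at this
    linarith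
  have hl2 := Real.log_two_lt_d9
  have hl2' := Real.log_two_gt_d9
  have eΛ : exp Λ = exp 1 * D ^ 6 := by
    rw [hΛ, exp_add]
    congr 1
    rw [show (6 : ℝ) * log D = ((6 : ℕ) : ℝ) * log D by norm_num, exp_nat_mul, exp_log hD0]
  have e3 : 2 ≤ exp 1 := by have := Real.exp_one_gt_d9; linarith
  have e4 : D ≤ D ^ 6 := le_self_pow₀ hD1 (by norm_num)
  have hDe : D ≤ exp Λ := by
    rw [eΛ]; nlinarith
  refine ⟨n1, hP1, hal0, hal1, hD1, hΛ1, hk1, hk2, n4, ?_, ?_, ?_⟩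
  · rw [exp_neg, ← div_eq_mul_inv, div_le_one (exp_pos _), eΛ]
    have e5 : B / al ≤ D := by
      have h1 : B / al ≤ B ^ 2 / al ^ 2 := by
        rw [← div_pow]
        apply le_self_pow₀ _ (by norm_num)
        rw [one_le_div hal0]; linarith
      rw [hD]; linarith
    calc 2 * B / al = 2 * (B / al) := by ring
      _ ≤ exp 1 * D ^ 6 := mul_le_mul e3 (e5.trans e4) (by positivity) (by positivity)
  · have e1 : P ≤ 2 * B ^ 2 * l8 ^ 4 := by
      have h1 : 1 ≤ B ^ 2 := one_le_pow₀ hB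
      have h2 : 1 ≤ l8 ^ 4 := one_le_pow₀ hl1
      have h3 : 1 ≤ B ^ 2 * l8 ^ 4 := by nlinarith
      rw [hP]; linarith
    have e2 : D ≤ 2 ^ 15 * B ^ 10 * l8 ^ 22 := by
      have f1 : B ^ 2 / al ^ 2 = B ^ 2 * (2 ^ 10 * P ^ 4 * l8 ^ 6) := by
        rw [hal]; field_simp; ring
      have f2 : P ^ 4 ≤ (2 * B ^ 2 * l8 ^ 4) ^ 4 := pow_le_pow_left₀ hP0.le e1 4
      have f3 : B ^ 2 * (2 ^ 10 * P ^ 4 * l8 ^ 6) ≤ 2 ^ 14 * B ^ 10 * l8 ^ 22 := by
        calc B ^ 2 * (2 ^ 10 * P ^ 4 * l8 ^ 6)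
            ≤ B ^ 2 * (2 ^ 10 * (2 * B ^ 2 * l8 ^ 4) ^ 4 * l8 ^ 6) := by
              gcongr
          _ = _ := by ring
      have f4 : 1 ≤ 2 ^ 14 * B ^ 10 * l8 ^ 22 := by
        have g1 : 1 ≤ B ^ 10 := one_le_pow₀ hB
        have g2 : 1 ≤ l8 ^ 22 := one_le_pow₀ hl1
        have g3 : 1 ≤ B ^ 10 * l8 ^ 22 := by nlinarith
        linarith
      rw [hD, f1]; linarith
    have e5 : log D ≤ 15 * log 2 + 10 * log B + 22 * log l8 := by
      have f := log_le_log hD0 e2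
      rw [log_mul (by positivity) (by positivity), log_mul (by positivity) (by positivity),
        log_pow, log_pow, log_pow] at f
      push_cast at f
      linarith
    rw [hΛ]; linarith
  · refine le_trans ?_ hDe
    have f1 : B ^ 2 / al ^ 2 = B ^ 2 * (2 ^ 10 * P ^ 4 * l8 ^ 6) := by
      rw [hal]; field_simp; ring
    have g1 : 1 ≤ B ^ 2 := one_le_pow₀ hB
    have g2 : P ≤ P ^ 4 := le_self_pow₀ hP1 (by norm_num)
    have g3 : l8 ≤ l8 ^ 6 := le_self_pow₀ hl1 (by norm_num)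
    have g4 : P * l8 ≤ P ^ 4 * l8 ^ 6 := mul_le_mul g2 g3 hl0.le (by positivity)
    have g5 : 0 ≤ P * l8 := by positivity
    rw [hD, f1]
    nlinarith

theorem LL_one {B N : ℝ} (hB : 1 ≤ B) (hN : 3 ≤ N) : 1 ≤ LL B N := by
  unfold LL
  have h1 := Real.log_nonneg hB
  have h2 : 1 ≤ Real.log N := by
    rw [Real.le_log_iff_exp_le (by linarith)]
    have := Real.exp_one_lt_d9
    linarith
  have h3 := Real.log_nonneg h2
  linarith

theorem rtp_of (h1 : STcount) (h2 : STgreedy) (h3 : STdeg) : RTP 2000000 := by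
  classical
  intro V J _ _ c z B N T hB hTB hT hN hcol hc hrow hz
  have hB0 : 0 < B := by linarith
  have hcV : (0 : ℝ) ≤ Fintype.card V := Nat.cast_nonneg _
  have hcJ : (0 : ℝ) ≤ Fintype.card J := Nat.cast_nonneg _
  have hN3 : 3 ≤ N := by linarith
  have hVN : (Fintype.card V : ℝ) ≤ N := by linarith
  set l8 := log (8 * N) with hl8
  set P := 1 + B ^ 2 * l8 ^ 4 with hP
  set al := 1 / (32 * P ^ 2 * l8 ^ 3) with hal
  set D := 1 + B ^ 2 / al ^ 2 with hD
  set Λ := 1 + 6 * log D with hΛ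
  set k := ⌈l8⌉₊ with hk
  obtain ⟨hl83, hP1, hal0, hal1, hD1, hΛ1, hk1, hk2, h64, hexp, hΛL, h8P⟩ :=
    num_parP hB hN3 hl8 hP hal hD hΛ hk
  have hl0 : 0 < l8 := by linarith
  have hD0 : 0 < D := by linarith
  have haw0 : 0 < 1 / l8 ^ 2 := by positivity
  -- degrees
  have hdeg : ∀ α : ℝ, 0 < α → ∀ a, (Set.ncard {b | Ad c α a b} : ℝ) ≤ B ^ 2 / α ^ 2 := by
    intro α hα a
    have hs : (√B) ^ 2 = B := sq_sqrt hB0.le
    have hsB : 0 < √B := sqrt_pos.2 hB0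
    have hsB2 : ∀ x : ℝ, (x / √B) ^ 2 = x ^ 2 / B := fun x => by rw [div_pow, hs]
    have g1 := h3 V J (fun j i => c j i / √B) (α / B) 1 (by positivity) zero_le_one (fun i => by
      simp only [hsB2]
      rw [← Finset.sum_div, div_le_one hB0]
      exact (hcol i).trans hTB) (fun j => by
      simp only [hsB2]
      rw [← Finset.sum_div, div_le_one hB0]
      exact hrow j) a
    have g2 : {b | Ad (fun j i => c j i / √B) (α / B) a b} = {b | Ad c α a b} := by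
      ext b
      simp only [Set.mem_ofPred_eq, Ad]
      refine exists_congr fun j => ?_
      rw [hsB2, hsB2, div_lt_div_iff_of_pos_right hB0, div_lt_div_iff_of_pos_right hB0]
    rw [g2] at g1
    refine g1.trans (le_of_eq ?_)
    rw [div_pow, one_div_div]
  set dw := ⌊B ^ 2 / (1 / l8 ^ 2) ^ 2⌋₊ with hdw
  set ds := ⌊B ^ 2 / al ^ 2⌋₊ with hds
  have hdwP : (1 + dw : ℝ) ≤ P := by
    have a1 : (dw : ℝ) ≤ B ^ 2 / (1 / l8 ^ 2) ^ 2 := Nat.floor_le (by positivity)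
    have a2 : B ^ 2 / (1 / l8 ^ 2) ^ 2 = B ^ 2 * l8 ^ 4 := by field_simp
    rw [hP]; linarith
  have hdsD : (1 + ds : ℝ) ≤ D := by
    have a1 : (ds : ℝ) ≤ B ^ 2 / al ^ 2 := Nat.floor_le (by positivity)
    rw [hD]; linarith
  have hd1 : ∀ a, Set.ncard {b | Ad c (1 / l8 ^ 2) a b} ≤ dw := fun a =>
    Nat.le_floor (hdeg _ haw0 a)
  have hd2 : ∀ a, Set.ncard {b | Ad c al a b} ≤ ds := fun a => Nat.le_floor (hdeg _ hal0 a)
  obtain ⟨W, hW1, hW2, hW3⟩ := h1 V (Ad c (1 / l8 ^ 2)) (Ad c al) dw ds k (Ad_symm c _)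
    (Ad_symm c _) (Ad_mono c hal1) hd1 hd2
  -- parameters of the walk
  set T1 := max T Λ with hT1
  have hT10 : 0 < T1 := lt_max_of_lt_right (by linarith)
  have hT1Λ : Λ ≤ T1 := le_max_right _ _
  have hβ : Λ / T1 * (24 * T1 / 2 - 6 * T1) = 6 * Λ := by field_simp; ring
  have hWexp : (W.card : ℝ) * exp (-(Λ / T1 * (24 * T1 / 2 - 6 * T1) * (k + 1))) ≤ 1 / 8 := by
    rw [hβ]
    have a1 : (W.card : ℝ) ≤ N * D ^ (6 * k) := by
      have b1 : (W.card : ℝ) ≤ Fintype.card V * ((1 + ds : ℝ) ^ 3) ^ (2 * k) := by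
        exact_mod_cast hW1
      refine b1.trans ?_
      rw [← pow_mul, show 3 * (2 * k) = 6 * k by ring]
      have b2 : (1 + ds : ℝ) ^ (6 * k) ≤ D ^ (6 * k) := pow_le_pow_left₀ (by positivity) hdsD _
      exact mul_le_mul hVN b2 (by positivity) (by linarith)
    have a2 : exp (-(6 * Λ * (k + 1))) ≤ 1 / (8 * N) / D ^ (6 * k) := by
      have b1 : exp (-(6 * Λ * (k + 1))) ≤ exp (-(l8 + (6 * k) * log D)) := by
        apply exp_le_exp.2
        have c2 : 0 ≤ log D := log_nonneg hD1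
        have c3 : (0 : ℝ) ≤ k := Nat.cast_nonneg _
        have c4 : Λ * (k + 1) ≤ 6 * Λ * (k + 1) := by nlinarith
        have c5 : l8 + 6 * k * log D ≤ Λ * (k + 1) := by
          rw [hΛ]; nlinarith
        linarith
      refine b1.trans (le_of_eq ?_)
      rw [exp_neg, exp_add, hl8, exp_log (by linarith)]
      have b2 : exp (6 * k * log D) = D ^ (6 * k) := by
        rw [show (6 : ℝ) * k * log D = ((6 * k : ℕ) : ℝ) * log D by push_cast; ring, exp_nat_mul,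
          exp_log hD0]
      rw [b2]
      field_simp
    calc (W.card : ℝ) * exp (-(6 * Λ * (k + 1)))
        ≤ N * D ^ (6 * k) * (1 / (8 * N) / D ^ (6 * k)) :=
          mul_le_mul a1 a2 (exp_pos _).le (by positivity)
      _ = 1 / 8 := by field_simp
  obtain ⟨y, y1, y1', y2, y3, y4⟩ := tests c z (B := B) (N := N) (T := T1) (κ := 24 * T1)
    (ν := Λ / T1) (aw := 1 / l8 ^ 2) (al := al) (k := k) W hN
    (fun i => (hcol i).trans (le_max_left _ _)) hc hrow hz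
    (by linarith) le_rfl hT10.le (by positivity) (by rw [div_le_one hT10]; exact hT1Λ) hal0 hal1
    (by
      rw [← hl8]
      have e : 8 * (1 / l8 ^ 2) * l8 ^ 2 = 8 := by field_simp
      rw [e]; linarith) hW2 hWexp (by
      rw [hβ]
      refine le_trans ?_ hexp
      apply mul_le_mul_of_nonneg_left (exp_le_exp.2 (by linarith)) (by positivity))
  obtain ⟨g, g1, g2⟩ := hW3 {u | |y u| < 1} (fun S hS => by
    obtain ⟨u, hu, hu1⟩ := y3 S hS
    exact ⟨u, hu, fun hh => by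
      have hh' : |y u| < 1 := hh
      rw [hu1] at hh'
      exact lt_irrefl _ hh'⟩)
  have hl64 : 0 ≤ log (64 * N) := log_nonneg (by linarith)
  have hsmall : ∀ j, ∑ u, (if |y u| < 1 ∧ c j u ^ 2 ≤ al then c j u ^ 2 else 0)
      ≤ (1 + dw) * (al * log (64 * N)) := by
    intro j
    obtain ⟨A, hA1, hA2, hA3⟩ := h2 V (Ad c (1 / l8 ^ 2)) dw
      (fun u => if c j u ^ 2 ≤ al then c j u ^ 2 else 0) (Finset.univ.filter fun u => |y u| < 1)
      (Ad_symm c _) hd1 (fun v => by split_ifs; exacts [sq_nonneg _, le_rfl])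
    have a1 := y4 j A (fun u hu => (Finset.mem_filter.1 (hA1 hu)).2) hA2
    have a2 : ∑ u, (if |y u| < 1 ∧ c j u ^ 2 ≤ al then c j u ^ 2 else 0)
        = ∑ v ∈ Finset.univ.filter (fun u => |y u| < 1),
          (if c j v ^ 2 ≤ al then c j v ^ 2 else 0) := by
      rw [Finset.sum_filter]
      refine Finset.sum_congr rfl fun u _ => ?_
      by_cases hu : |y u| < 1
      · simp [hu]
      · simp [hu]
    rw [a2]
    calc _ ≤ _ := hA3
      _ ≤ (dw + 1) * (al * log (64 * N)) := by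
          apply mul_le_mul_of_nonneg_left a1; positivity
      _ = _ := by ring
  have hom0 : 0 ≤ (1 + dw) * (al * log (64 * N)) := by positivity
  obtain ⟨χ, x1, x2, x3⟩ := flp c y g (al := al) (om := (1 + dw) * (al * log (64 * N))) (N := N)
    (T := T) (Λ := Λ) (nc := (1 + dw) * k) hom0 hN hcol hc hT y1 (fun v => g2 v)
    (fun j u u' hu hu' e1 e2 => g1 u u' hu hu' ⟨j, e1, e2⟩) hsmall (by
      push_cast
      have hal' : al * (32 * P ^ 2 * l8 ^ 3) = 1 := by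
        rw [hal]; field_simp
      rw [← hl8]
      calc 8 * ((1 + dw : ℝ) * k) * ((1 + dw) * (al * log (64 * N))) * l8
          ≤ 8 * (P * (2 * l8)) * (P * (al * (2 * l8))) * l8 := by gcongr
        _ = al * (32 * P ^ 2 * l8 ^ 3) := by ring
        _ = 1 := hal') hΛ1 (by
      push_cast
      refine le_trans ?_ h8P
      calc 4 * ((1 + dw : ℝ) * k) ≤ 4 * (P * (2 * l8)) := by gcongr
        _ = 8 * P * l8 := by ring)
  refine ⟨χ, x1, fun i hi => ?_, fun j => ?_⟩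
  · have h5 := y1' i hi
    rw [x2 i (by rw [h5]; exact hi), h5]
  · have e : ∑ i, c j i * (χ i - z i) = ∑ i, c j i * (χ i - y i) + ∑ i, c j i * (y i - z i) := by
      rw [← Finset.sum_add_distrib]
      exact Finset.sum_congr rfl fun i _ => by ring
    rw [e]
    refine (abs_add_le _ _).trans ?_
    have hLL1 : 1 ≤ LL B N := LL_one hB hN3
    have b1 := (y2 j).trans (num_w hT hΛ1)
    have b2 := x3 j
    have hsT : 0 ≤ √T := sqrt_nonneg _
    have hlogL : 0 ≤ log (LL B N) := log_nonneg hLL1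
    have hsL : 1 ≤ √(LL B N) := Real.one_le_sqrt.2 hLL1
    have b3 : √Λ ≤ 18 * √(LL B N) := by
      have h324 : √(324 : ℝ) = 18 := by
        rw [show (324 : ℝ) = 18 ^ 2 by norm_num, sqrt_sq (by norm_num)]
      rw [← h324, ← sqrt_mul (by norm_num)]
      apply sqrt_le_sqrt
      linarith
    have b4 : log Λ ≤ 6 + log (LL B N) := by
      have f1 : log Λ ≤ log (300 * LL B N) := log_le_log (by linarith) hΛL
      rw [log_mul (by norm_num) (by linarith)] at f1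
      have f2 : log (300 : ℝ) ≤ 6 := by
        rw [log_le_iff_le_exp (by norm_num)]
        have h6 := Real.exp_one_gt_d9
        have h7 : exp (6 : ℝ) = exp 1 ^ 6 := by
          rw [← exp_nat_mul]; norm_num
        rw [h7]
        have h9 : (2.7 : ℝ) ^ 6 ≤ exp 1 ^ 6 := pow_le_pow_left₀ (by norm_num) (by linarith) 6
        refine le_trans ?_ h9
        norm_num
      linarith
    have b5 : √Λ * (1 + log Λ) ≤ 18 * √(LL B N) * (7 * (1 + log (LL B N))) := by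
      apply mul_le_mul b3 _ _ (by positivity)
      · linarith
      · have := log_nonneg hΛ1
        linarith
    have b6 : 0 ≤ √(LL B N) * log (LL B N) := by positivity
    nlinarith

end Pool.Agent.Helper78.BO
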