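import Pool.Agent.Helper78.BO.RTP
import Pool.Agent.Helper60.BO.StP

namespace Pool.Agent.Helper78.BO

open Pool.Agent.Helper98.BO

/-- the round theorem in the form of Helper60/BO/StP.lean -/
theorem rtp60_of (h1 : STcount) (h2 : STgreedy) (h3 : STdeg) : Pool.Agent.Helper60.BO.RTP 2000000 := by
  intro V J _ _ c z B N τ hτ hτB hN hc hcol hrow hz
  obtain ⟨y, y1, -, y3⟩ := rtp_of h1 h2 h3 V J c z B N τ (hτ.trans hτB) hτB (by linarith) hN
    hcol hc hrow hz
  exact ⟨y, y1, y3⟩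

end Pool.Agent.Helper78.BO
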