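import Pool.Agent.Helper78.BO.WPot

namespace Pool.Agent.Helper78.BO

open Real Pool.Agent.Helper26.Gsw Pool.Agent.Helper22.LT
open scoped RealInnerProductSpace Classical

variable {V J : Type*} [Fintype V] [Fintype J]

theorem th_update (κ : ℝ) (l : J → ℕ) (lam : J → ℝ) (S : J) (r : ℝ) :
    th κ l (Function.update lam S r)
      = th κ l (Function.update lam S 0) + r • th κ l (Pi.single S 1) := by
  ext j
  simp only [th, PiLp.add_apply, PiLp.smul_apply, smul_eq_mul]
  by_cases hj : j = S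
  · subst hj
    simp
  · simp [Function.update_of_ne hj, hj]

theorem JJ_par (c : J → V → ℝ) (κ : ℝ) (A : Finset V) (l : J → ℕ) (lam : J → ℝ) (S : J) (r : ℝ) :
    2 * JJ c κ A l (Function.update lam S 0)
      ≤ JJ c κ A l (Function.update lam S r) + JJ c κ A l (Function.update lam S (-r)) := by
  unfold JJ
  rw [th_update κ l lam S r, th_update κ l lam S (-r), map_add, map_add, neg_smul, map_neg]
  set p := (Sp (bv c κ l) A).starProjection (th κ l (Function.update lam S 0))
  set q := (Sp (bv c κ l) A).starProjection (r • th κ l (Pi.single S 1))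
  have h := parallelogram_law_with_norm ℝ p q
  have e : p + -q = p - q := by abel
  rw [e]
  nlinarith [sq_nonneg ‖q‖]

/-- trivial coefficient -/
noncomputable def g0 (s : Fin 3) : ℝ := if s = 0 then 1 else 0

theorem GP_lock1 (c : J → V → ℝ) (κ : ℝ) {g : J → Fin 3 → ℝ} (hg : ∀ j s, 0 ≤ g j s)
    {S : J} (hg0 : g S 0 = 1) (hg12 : g S 2 = g S 1) (e : J → ℝ)
    (A : Finset V) (x : V → ℝ) (l : J → ℕ) (h : J → ℝ) :
    (1 + 2 * g S 1) * GP c κ (Function.update g S g0) e A x l h ≤ GP c κ g e A x l h := by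
  have h3 : (1 + 2 * g S 1) * (3 * GP c κ (Function.update g S g0) e A x l h)
      ≤ 3 * GP c κ g e A x l h := by
    unfold GP
    rw [← sum_update _ S, ← sum_update _ S, Finset.mul_sum]
    refine Finset.sum_le_sum fun σ _ => ?_
    set R := ∏ j ∈ Finset.univ.erase S, g j (σ j) with hR
    set Q := ∑ j ∈ Finset.univ.erase S, sgn (σ j) * e j * (rs c x j - h j) with hQ
    have hR0 : 0 ≤ R := Finset.prod_nonneg fun j _ => hg _ _
    set lam : J → ℝ := fun j => sgn (σ j) * e j with hlam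
    set E := rs c x S - h S with hE
    have eold : ∀ (g1 : Fin 3 → ℝ) (s : Fin 3),
        GF c κ (Function.update g S g1) e A x l h (Function.update σ S s)
        = R * (g1 s * exp (sgn s * e S * E) *
            exp (Q + JJ c κ A l (Function.update lam S (sgn s * e S)) / 2)) := by
      intro g1 s
      have e1 : ∏ j, Function.update g S g1 j (Function.update σ S s j) = g1 s * R := by
        rw [← Finset.mul_prod_erase Finset.univ _ (Finset.mem_univ S), Function.update_self,
          Function.update_self]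
        congr 1
        refine Finset.prod_congr rfl fun j hj => ?_
        rw [Function.update_of_ne (Finset.ne_of_mem_erase hj),
          Function.update_of_ne (Finset.ne_of_mem_erase hj)]
      have e2 : ∑ j, sgn (Function.update σ S s j) * e j * (rs c x j - h j)
          = sgn s * e S * E + Q := by
        rw [← Finset.add_sum_erase Finset.univ _ (Finset.mem_univ S), Function.update_self]
        congr 1
        refine Finset.sum_congr rfl fun j hj => ?_
        rw [Function.update_of_ne (Finset.ne_of_mem_erase hj)]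
      have e3 : (fun j => sgn (Function.update σ S s j) * e j)
          = Function.update lam S (sgn s * e S) := by
        funext j
        by_cases hj : j = S
        · subst hj; simp
        · simp [Function.update_of_ne hj, hlam]
      unfold GF
      rw [e1, e2, e3, add_assoc, exp_add]
      ring
    have eg : GF c κ g e A x l h = GF c κ (Function.update g S (g S)) e A x l h := by
      rw [Function.update_eq_self]
    rw [eg]
    simp only [eold]
    rw [← Finset.mul_sum, ← Finset.mul_sum, mul_left_comm]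
    refine mul_le_mul_of_nonneg_left ?_ hR0
    rw [Fin.sum_univ_three, Fin.sum_univ_three, hg0, hg12]
    have z0 : g0 0 = 1 := by simp [g0]
    have z1 : g0 1 = 0 := by simp [g0]
    have z2 : g0 2 = 0 := by simp [g0]
    rw [z0, z1, z2]
    have hgs : 0 ≤ g S 1 := hg _ _
    set X0 := exp (Q + JJ c κ A l (Function.update lam S (sgn 0 * e S)) / 2) with hX0
    have h1 : X0 * 2 ≤ exp (sgn 1 * e S * E) * exp (Q + JJ c κ A l (Function.update lam S (sgn 1 * e S)) / 2)
        + exp (sgn 2 * e S * E) * exp (Q + JJ c κ A l (Function.update lam S (sgn 2 * e S)) / 2) := by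
      rw [← exp_add, ← exp_add]
      set u := sgn 1 * e S * E + (Q + JJ c κ A l (Function.update lam S (sgn 1 * e S)) / 2) with hu
      set v := sgn 2 * e S * E + (Q + JJ c κ A l (Function.update lam S (sgn 2 * e S)) / 2) with hv
      have h2 : exp ((u + v) / 2) * 2 ≤ exp u + exp v := by
        have e1 : exp ((u + v) / 2) = exp (u / 2) * exp (v / 2) := by rw [← exp_add]; congr 1; ring
        have e2 : exp u = exp (u / 2) ^ 2 := by rw [← exp_nat_mul]; congr 1; push_cast; ring
        have e3 : exp v = exp (v / 2) ^ 2 := by rw [← exp_nat_mul]; congr 1; push_cast; ring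
        rw [e1, e2, e3]
        nlinarith [sq_nonneg (exp (u / 2) - exp (v / 2))]
      have h4 : X0 ≤ exp ((u + v) / 2) := by
        rw [hX0]
        apply exp_le_exp.2
        have h5 := JJ_par c κ A l lam S (e S)
        rw [hu, hv, sgn_zero, sgn_one, sgn_two, zero_mul, one_mul, neg_one_mul]
        linarith
      linarith
    have e10 : exp (sgn 0 * e S * E) = 1 := by rw [sgn_zero]; simp
    rw [e10]
    have h6 := mul_le_mul_of_nonneg_left h1 hgs
    nlinarith
  have e4 : (1 + 2 * g S 1) * (3 * GP c κ (Function.update g S g0) e A x l h)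
      = 3 * ((1 + 2 * g S 1) * GP c κ (Function.update g S g0) e A x l h) := by ring
  rw [e4] at h3
  linarith

/-- the potential of a test -/
noncomputable def PP (c : J → V → ℝ) (κ : ℝ) (z : J → ℕ → ℝ) (μ : ℝ) (a : J → ℝ) (A : Finset V)
    (x : V → ℝ) (l : J → ℕ) (h : J → ℝ) : ℝ :=
  GP c κ (fun j => gc μ (a j) (l j)) (fun j => el κ (z j (l j)) (l j)) A x l h

theorem PP_nonneg (c : J → V → ℝ) (κ : ℝ) (z : J → ℕ → ℝ) {μ : ℝ} (hμ : 0 ≤ μ) {a : J → ℝ}
    (ha : ∀ j, 0 ≤ a j) (A : Finset V) (x : V → ℝ) (l : J → ℕ) (h : J → ℝ) :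
    0 ≤ PP c κ z μ a A x l h := GP_nonneg c κ (fun j s => gc_nonneg hμ (ha j) _ _) _ A x l h

theorem PP_mono (c : J → V → ℝ) (κ : ℝ) (z : J → ℕ → ℝ) {μ : ℝ} (hμ : 0 ≤ μ) {a : J → ℝ}
    (ha : ∀ j, 0 ≤ a j) {A A' : Finset V} (hA : A' ⊆ A) (x : V → ℝ) (l : J → ℕ) (h : J → ℝ) :
    PP c κ z μ a A' x l h ≤ PP c κ z μ a A x l h :=
  GP_mono c κ (fun j s => gc_nonneg hμ (ha j) _ _) _ hA x l h

theorem PP_lock1 (c : J → V → ℝ) (κ : ℝ) (z : J → ℕ → ℝ) {μ : ℝ} (hμ : 0 ≤ μ) {a : J → ℝ}
    (ha : ∀ j, 0 ≤ a j) (A : Finset V) (x : V → ℝ) (l : J → ℕ) (h : J → ℝ) (S : J) :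
    exp (μ * 2 ^ l S * a S) * PP c κ z μ (Function.update a S 0) A x l h
      ≤ PP c κ z μ a A x l h := by
  have h1 := GP_lock1 c κ (g := fun j => gc μ (a j) (l j)) (fun j s => gc_nonneg hμ (ha j) _ _)
    (S := S) (gc_zero _ _ _) (by rw [gc_one, gc_two]) (fun j => el κ (z j (l j)) (l j)) A x l h
  have e1 : (1 : ℝ) + 2 * gc μ (a S) (l S) 1 = exp (μ * 2 ^ l S * a S) := by rw [gc_one]; ring
  have e2 : Function.update (fun j => gc μ (a j) (l j)) S g0
      = fun j => gc μ (Function.update a S 0 j) (l j) := by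
    funext j
    by_cases hj : j = S
    · subst hj
      rw [Function.update_self, Function.update_self]
      funext s
      simp [gc, g0]
    · rw [Function.update_of_ne hj, Function.update_of_ne hj]
  rw [e1, e2] at h1
  exact h1

/-- the lock lemma -/
theorem PP_lock (c : J → V → ℝ) (κ : ℝ) (z : J → ℕ → ℝ) {μ : ℝ} (hμ : 0 ≤ μ) {a : J → ℝ}
    (ha : ∀ j, 0 ≤ a j) (A : Finset V) (x : V → ℝ) (l : J → ℕ) (h : J → ℝ) (T : Finset J) :
    exp (μ * ∑ j ∈ T, 2 ^ l j * a j) * PP c κ z μ (fun j => if j ∈ T then 0 else a j) A x l h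
      ≤ PP c κ z μ a A x l h := by
  induction T using Finset.induction_on with
  | empty => simp
  | insert S T hST ih =>
    have ha' : ∀ j, 0 ≤ (fun j => if j ∈ T then 0 else a j) j := by
      intro j; dsimp only; split_ifs
      · exact le_refl _
      · exact ha j
    have h1 := PP_lock1 c κ z hμ ha' A x l h S
    have e1 : Function.update (fun j => if j ∈ T then 0 else a j) S 0
        = fun j => if j ∈ insert S T then 0 else a j := by
      funext j
      by_cases hj : j = S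
      · subst hj
        simp
      · rw [Function.update_of_ne hj]
        simp [hj]
    have e2 : (fun j => if j ∈ T then 0 else a j) S = a S := by simp [hST]
    rw [e1] at h1
    rw [Finset.sum_insert hST]
    have e3 : μ * (2 ^ l S * a S + ∑ j ∈ T, 2 ^ l j * a j)
        = μ * ∑ j ∈ T, 2 ^ l j * a j + μ * 2 ^ l S * a S := by ring
    rw [e3, exp_add, mul_assoc]
    simp only [hST, if_false] at h1
    exact (mul_le_mul_of_nonneg_left h1 (exp_pos _).le).trans ih

theorem PP_zero (c : J → V → ℝ) (κ : ℝ) (z : J → ℕ → ℝ) (μ : ℝ)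
    (A : Finset V) (x : V → ℝ) (l : J → ℕ) (h : J → ℝ) :
    1 ≤ PP c κ z μ (fun _ => 0) A x l h := by
  unfold PP GP
  have h1 : GF c κ (fun j => gc μ 0 (l j)) (fun j => el κ (z j (l j)) (l j)) A x l h (fun _ => 0)
      ≤ ∑ σ, GF c κ (fun j => gc μ 0 (l j)) (fun j => el κ (z j (l j)) (l j)) A x l h σ := by
    apply Finset.single_le_sum
      (f := fun σ => GF c κ (fun j => gc μ 0 (l j)) (fun j => el κ (z j (l j)) (l j)) A x l h σ)
    · intro σ _
      unfold GF
      refine mul_nonneg (Finset.prod_nonneg fun j _ => ?_) (exp_pos _).le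
      change 0 ≤ gc μ 0 (l j) (σ j)
      unfold gc
      split_ifs <;> simp
    · exact Finset.mem_univ _
  refine le_trans ?_ h1
  unfold GF
  simp only [gc_zero, Finset.prod_const_one, one_mul, sgn_zero, zero_mul, Finset.sum_const_zero,
    zero_add]
  apply one_le_exp
  have := JJ_nonneg c κ A l (fun _ => 0)
  linarith

theorem PP_ge (c : J → V → ℝ) (κ : ℝ) (z : J → ℕ → ℝ) {μ : ℝ} (hμ : 0 ≤ μ) {a : J → ℝ}
    (ha : ∀ j, 0 ≤ a j) (A : Finset V) (x : V → ℝ) (l : J → ℕ) (h : J → ℝ) :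
    exp (μ * ∑ j, 2 ^ l j * a j) ≤ PP c κ z μ a A x l h := by
  have h1 := PP_lock c κ z hμ ha A x l h Finset.univ
  simp only [Finset.mem_univ, if_true] at h1
  have h2 := PP_zero c κ z μ A x l h
  have h3 := exp_pos (μ * ∑ j, 2 ^ l j * a j)
  nlinarith

theorem PP_level (c : J → V → ℝ) {κ μ : ℝ} (hκ : 0 < κ) (hμ : 0 ≤ μ) {z : J → ℕ → ℝ}
    (hz : ∀ j l, 0 ≤ z j l) (hzz : ∀ j l, z j (l + 1) ≤ 2 * z j l + 1) {a : J → ℝ}
    (ha : ∀ j, 0 ≤ a j) (A : Finset V) (x : V → ℝ) (l : J → ℕ) (h : J → ℝ) (S : J)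
    (haS : μ * 2 ^ l S * a S ≤ z S (l S))
    (hS : gp κ (z S (l S)) (l S) ≤ |rs c x S - h S|) :
    PP c κ z μ a A x (Function.update l S (l S + 1)) (Function.update h S (rs c x S))
      ≤ PP c κ z μ a A x l h := by
  have h1 := GP_level c hκ (g := fun j => gc μ (a j) (l j)) (fun j s => gc_nonneg hμ (ha j) _ _)
    (fun j => gc_zero _ _ _) (fun j => by rw [gc_one, gc_two])
    (e := fun j => el κ (z j (l j)) (l j)) (fun j => el_nonneg _ _ _) A x l h S
    (D := gp κ (z S (l S)) (l S)) (e' := el κ (z S (l S + 1)) (l S + 1))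
    (g' := gc μ (a S) (l S + 1)) (fun s => gc_nonneg hμ (ha S) _ _)
    (gc_zero _ _ _) (by rw [gc_one, gc_two]) (el_nonneg _ _ _) hS
    (lev_scalar hκ hμ (hz _ _) (hz _ _) (hzz _ _) _ (ha S) haS)
  have e1 : Function.update (fun j => gc μ (a j) (l j)) S (gc μ (a S) (l S + 1))
      = fun j => gc μ (a j) (Function.update l S (l S + 1) j) := by
    funext j
    by_cases hj : j = S
    · subst hj; rw [Function.update_self, Function.update_self]
    · rw [Function.update_of_ne hj, Function.update_of_ne hj]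
  have e2 : Function.update (fun j => el κ (z j (l j)) (l j)) S (el κ (z S (l S + 1)) (l S + 1))
      = fun j => el κ (z j (Function.update l S (l S + 1) j)) (Function.update l S (l S + 1) j) := by
    funext j
    by_cases hj : j = S
    · subst hj; rw [Function.update_self, Function.update_self]
    · rw [Function.update_of_ne hj, Function.update_of_ne hj]
  rw [e1, e2] at h1
  exact h1

theorem PP_init (c : J → V → ℝ) {κ μ : ℝ} (hκ : 0 < κ) (hμ : 0 ≤ μ) {z : J → ℕ → ℝ}
    (hz : ∀ j l, 0 ≤ z j l) (hz1 : ∀ j, z j 0 ≤ 1) {a : J → ℝ}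
    (ha : ∀ j, 0 ≤ a j) (ha1 : ∀ j, μ * a j ≤ 1) (A : Finset V) (x : V → ℝ) :
    PP c κ z μ a A x (fun _ => 0) (rs c x) ≤ exp (6 * μ * ∑ j, a j) := by
  have h1 : PP c κ z μ a A x (fun _ => 0) (rs c x) ≤ ∑ σ : J → Fin 3, ∏ j, (gc μ (a j) 0 (σ j)
      * exp (sgn (σ j) ^ 2)) := by
    unfold PP GP GF
    refine Finset.sum_le_sum fun σ _ => ?_
    rw [Finset.prod_mul_distrib, ← exp_sum]
    apply mul_le_mul_of_nonneg_left
    · apply exp_le_exp.2
      have h2 := JJ_le c hκ A (fun _ => 0) (fun j => sgn (σ j) * el κ (z j 0) 0)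
      have h3 : ∑ j, sgn (σ j) * el κ (z j 0) 0 * (rs c x j - rs c x j) = 0 :=
        Finset.sum_eq_zero fun j _ => by ring
      rw [h3, zero_add]
      have h4 : ∑ j, κ * (sgn (σ j) * el κ (z j 0) 0) ^ 2 / 2 ^ 0 ≤ ∑ j, 2 * sgn (σ j) ^ 2 := by
        refine Finset.sum_le_sum fun j _ => ?_
        have h5 := el_sq hκ (hz j 0) 0
        have e : κ * (sgn (σ j) * el κ (z j 0) 0) ^ 2 / 2 ^ 0
            = sgn (σ j) ^ 2 * (κ * el κ (z j 0) 0 ^ 2) := by
          ring
        rw [e, h5]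
        nlinarith [sq_nonneg (sgn (σ j)), hz1 j]
      rw [← Finset.mul_sum] at h4
      linarith
    · exact Finset.prod_nonneg fun j _ => gc_nonneg hμ (ha j) _ _
  refine h1.trans ?_
  have h2 := Finset.prod_univ_sum (fun _ : J => (Finset.univ : Finset (Fin 3)))
    (fun j s => gc μ (a j) 0 s * exp (sgn s ^ 2))
  rw [Fintype.piFinset_univ] at h2
  rw [← h2, Finset.mul_sum, exp_sum]
  refine Finset.prod_le_prod (fun j _ => ?_) fun j _ => ?_
  · exact Finset.sum_nonneg fun s _ => mul_nonneg (gc_nonneg hμ (ha j) _ _) (exp_pos _).le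
  rw [Fin.sum_univ_three, gc_zero, gc_one, gc_two, sgn_zero, sgn_one, sgn_two]
  have e1 : ((-1 : ℝ)) ^ 2 = 1 := by norm_num
  have e2 : ((0 : ℝ)) ^ 2 = 0 := by norm_num
  rw [e1, e2, one_pow, exp_zero, pow_zero]
  set y := μ * a j with hy
  have e5 : μ * 1 * a j = y := by rw [hy]; ring
  rw [e5]
  have hy0 : 0 ≤ y := mul_nonneg hμ (ha j)
  have hy1 : y ≤ 1 := ha1 j
  have h3 : exp y ≤ 1 + 2 * y := by
    have := abs_exp_sub_one_le (x := y) (by rw [abs_of_nonneg hy0]; exact hy1)
    rw [abs_of_nonneg hy0] at this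
    have h4 := le_abs_self (exp y - 1)
    linarith
  have he : exp 1 ≤ 3 := by
    have := Real.exp_one_lt_d9
    linarith
  have h5 : 1 ≤ exp y := one_le_exp hy0
  have h6 := add_one_le_exp (6 * μ * a j)
  have h7 : (exp y - 1) * exp 1 ≤ 2 * y * 3 := by
    apply mul_le_mul (by linarith) he (exp_pos _).le (by linarith)
  have e3 : 6 * μ * a j = 6 * y := by rw [hy]; ring
  rw [e3] at h6 ⊢
  nlinarith

/-- two sided potential of one row -/
noncomputable def QQ (c : J → V → ℝ) (κ lm : ℝ) (S : J) (A : Finset V)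
    (x : V → ℝ) (l : J → ℕ) (h : J → ℝ) : ℝ :=
  exp (lm * (rs c x S - h S) + JJ c κ A l (Pi.single S lm) / 2)
    + exp (-lm * (rs c x S - h S) + JJ c κ A l (Pi.single S (-lm)) / 2)

theorem QQ_nonneg (c : J → V → ℝ) (κ lm : ℝ) (S : J) (A : Finset V)
    (x : V → ℝ) (l : J → ℕ) (h : J → ℝ) : 0 ≤ QQ c κ lm S A x l h := by
  unfold QQ; positivity

theorem QQ_mono (c : J → V → ℝ) (κ lm : ℝ) (S : J) {A A' : Finset V} (hA : A' ⊆ A)
    (x : V → ℝ) (l : J → ℕ) (h : J → ℝ) : QQ c κ lm S A' x l h ≤ QQ c κ lm S A x l h := by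
  unfold QQ
  have h1 := JJ_mono c κ hA l (Pi.single S lm)
  have h2 := JJ_mono c κ hA l (Pi.single S (-lm))
  apply add_le_add <;> apply exp_le_exp.2 <;> linarith

theorem JJ_update_le (c : J → V → ℝ) {κ : ℝ} (hκ : 0 < κ) (A : Finset V) (l : J → ℕ)
    (lam : J → ℝ) (S : J) :
    JJ c κ A (Function.update l S (l S + 1)) lam ≤ JJ c κ A l lam := by
  have h := JJ_level c hκ A l lam S (lam S)
  rw [Function.update_eq_self] at h
  have e : κ * (lam S - lam S) ^ 2 / 2 ^ l S = 0 := by ring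
  rw [e, add_zero] at h
  exact h

theorem QQ_level (c : J → V → ℝ) {κ : ℝ} (hκ : 0 < κ) (lm : ℝ) {S S' : J} (hS : S ≠ S')
    (A : Finset V) (x : V → ℝ) (l : J → ℕ) (h : J → ℝ) (r : ℝ) :
    QQ c κ lm S A x (Function.update l S' (l S' + 1)) (Function.update h S' r)
      ≤ QQ c κ lm S A x l h := by
  unfold QQ
  rw [Function.update_of_ne hS]
  have h1 := JJ_update_le c hκ A l (Pi.single S lm) S'
  have h2 := JJ_update_le c hκ A l (Pi.single S (-lm)) S'
  apply add_le_add <;> apply exp_le_exp.2 <;> linarith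

theorem QQ_ge (c : J → V → ℝ) (κ lm : ℝ) (S : J) (A : Finset V)
    (x : V → ℝ) (l : J → ℕ) (h : J → ℝ) :
    exp (lm * |rs c x S - h S|) ≤ QQ c κ lm S A x l h := by
  unfold QQ
  have h1 := JJ_nonneg c κ A l (Pi.single S lm)
  have h2 := JJ_nonneg c κ A l (Pi.single S (-lm))
  rcases le_total 0 (rs c x S - h S) with h3 | h3
  · rw [abs_of_nonneg h3]
    have h4 : exp (lm * (rs c x S - h S)) ≤ exp (lm * (rs c x S - h S) + JJ c κ A l (Pi.single S lm) / 2) :=
      exp_le_exp.2 (by linarith)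
    have h5 := exp_pos (-lm * (rs c x S - h S) + JJ c κ A l (Pi.single S (-lm)) / 2)
    linarith
  · rw [abs_of_nonpos h3]
    have h4 : exp (lm * -(rs c x S - h S)) ≤ exp (-lm * (rs c x S - h S) + JJ c κ A l (Pi.single S (-lm)) / 2) :=
      exp_le_exp.2 (by linarith)
    have h5 := exp_pos (lm * (rs c x S - h S) + JJ c κ A l (Pi.single S lm) / 2)
    linarith

theorem QQ_start (c : J → V → ℝ) {κ : ℝ} (hκ : 0 < κ) (lm : ℝ) (S : J) (A : Finset V)
    (x : V → ℝ) (l : J → ℕ) (h : J → ℝ) (hh : rs c x S = h S) :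
    QQ c κ lm S A x l h ≤ 2 * exp (κ * lm ^ 2 / 2 ^ l S / 2) := by
  unfold QQ
  rw [hh, sub_self, mul_zero, mul_zero, zero_add, zero_add]
  have key : ∀ r : ℝ, JJ c κ A l (Pi.single S r) ≤ κ * r ^ 2 / 2 ^ l S := by
    intro r
    refine (JJ_le c hκ A l (Pi.single S r)).trans (le_of_eq ?_)
    rw [Finset.sum_eq_single S]
    · simp
    · intro j _ hj
      simp [hj]
    · intro hc
      exact absurd (Finset.mem_univ S) hc
  have h1 := key lm
  have h2 := key (-lm)
  rw [neg_sq] at h2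
  have h3 : exp (JJ c κ A l (Pi.single S lm) / 2) ≤ exp (κ * lm ^ 2 / 2 ^ l S / 2) :=
    exp_le_exp.2 (by linarith)
  have h4 : exp (JJ c κ A l (Pi.single S (-lm)) / 2) ≤ exp (κ * lm ^ 2 / 2 ^ l S / 2) :=
    exp_le_exp.2 (by linarith)
  linarith

end Pool.Agent.Helper78.BO
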