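import Pool.Agent.Helper78.BO.WTot

namespace Pool.Agent.Helper78.BO

open Real Pool.Agent.Helper26.Gsw Pool.Agent.Helper22.LT
open scoped RealInnerProductSpace Classical

variable {V J X : Type*} [Fintype V] [Fintype J] [Fintype X]

namespace Prm

variable (p : Prm V J X)

/-- total width below a level -/
noncomputable def Hw (j : J) (l : ℕ) : ℝ := ∑ k ∈ Finset.range l, 4 / 3 * gp p.κ (p.zz j k) k

theorem Hw_mono (j : J) {l l' : ℕ} (h : l ≤ l') : p.Hw j l ≤ p.Hw j l' := by
  unfold Hw
  apply Finset.sum_le_sum_of_subset_of_nonneg (Finset.range_subset_range.2 h)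
  intro i _ _
  have := gp_nonneg p.κ (p.zz j i) i
  positivity

/-- a row that may change its level -/
def Mv (l : J → ℕ) (j : J) : Prop := p.one j ∨ l j < p.K

theorem relevel {A : Finset V} {z y : V → ℝ} {l : J → ℕ} {h : J → ℝ} (hlt : p.Tot A y l h < 1)
    (h1 : ∀ j, p.Mv l j → |rs p.c y j - h j| < 4 / 3 * gp p.κ (p.zz j (l j)) (l j))
    (h3 : ∀ j, |h j - rs p.c z j| ≤ p.Hw j (l j)) (T : Finset J) :
    ∃ (l' : J → ℕ) (h' : J → ℝ), (∀ j, j ∉ T → l' j = l j ∧ h' j = h j) ∧
      (∀ j ∈ T, (l' j = l j ∧ h' j = h j ∧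
          (p.Mv l j → |rs p.c y j - h j| < gp p.κ (p.zz j (l j)) (l j))) ∨
        (p.Mv l j ∧ l' j = l j + 1 ∧ h' j = rs p.c y j)) ∧
      (∀ j, |h' j - rs p.c z j| ≤ p.Hw j (l' j)) ∧
      p.Tot A y l' h' ≤ p.Tot A y l h := by
  induction T using Finset.induction_on with
  | empty => exact ⟨l, h, fun j _ => ⟨rfl, rfl⟩, fun j hj => absurd hj (Finset.notMem_empty j), h3,
      le_rfl⟩
  | insert S T hST ih =>
    obtain ⟨l', h', i1, i2, i3, i4⟩ := ih
    obtain ⟨e1, e2⟩ := i1 S hST
    by_cases hc : p.Mv l S ∧ gp p.κ (p.zz S (l S)) (l S) ≤ |rs p.c y S - h S|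
    · refine ⟨Function.update l' S (l' S + 1), Function.update h' S (rs p.c y S), fun j hj => ?_,
        fun j hj => ?_, fun j => ?_, ?_⟩
      · have hjS : j ≠ S := fun hh => hj (hh ▸ Finset.mem_insert_self _ _)
        rw [Function.update_of_ne hjS, Function.update_of_ne hjS]
        exact i1 j (fun hh => hj (Finset.mem_insert_of_mem hh))
      · by_cases hjS : j = S
        · subst hjS
          rw [Function.update_self, Function.update_self, e1]
          exact Or.inr ⟨hc.1, rfl, rfl⟩
        · rw [Function.update_of_ne hjS, Function.update_of_ne hjS]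
          rcases Finset.mem_insert.1 hj with hj | hj
          · exact absurd hj hjS
          · exact i2 j hj
      · by_cases hjS : j = S
        · subst hjS
          rw [Function.update_self, Function.update_self]
          have h3 := i3 j
          have h4 := h1 j hc.1
          rw [← e1, ← e2] at h4
          unfold Hw at h3 ⊢
          rw [Finset.sum_range_succ]
          have e3 : rs p.c y j - rs p.c z j = (rs p.c y j - h' j) + (h' j - rs p.c z j) := by ring
          rw [e3]
          refine (abs_add_le _ _).trans ?_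
          linarith
        · rw [Function.update_of_ne hjS, Function.update_of_ne hjS]
          exact i3 j
      · refine le_trans ?_ i4
        refine p.Tot_level (i4.trans_lt hlt) (S := S) ?_ (by rw [e1, e2]; exact hc.2)
        rw [e1]; exact hc.1
    · refine ⟨l', h', fun j hj => i1 j (fun hh => hj (Finset.mem_insert_of_mem hh)), fun j hj => ?_,
        i3, i4⟩
      rcases Finset.mem_insert.1 hj with hj | hj
      · rw [hj]
        exact Or.inl ⟨e1, e2, fun hK => not_le.1 (fun hh => hc ⟨hK, hh⟩)⟩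
      · exact i2 j hj

/-- invariants -/
structure Inv (z x : V → ℝ) (l : J → ℕ) (h : J → ℝ) : Prop where
  hx : ∀ i, |x i| ≤ 1
  hl : ∀ j, ¬ p.one j → l j ≤ p.K
  h1 : ∀ j, p.Mv l j → |rs p.c x j - h j| < gp p.κ (p.zz j (l j)) (l j)
  h3 : ∀ j, |h j - rs p.c z j| ≤ p.Hw j (l j)
  h4 : ∀ i, |z i| = 1 → x i = z i

theorem main_induction (z : V → ℝ) (n : ℕ) :
    ∀ (x : V → ℝ) (l : J → ℕ) (h : J → ℝ), (Al (p.U l) x).card ≤ n →
      p.Inv z x l h → p.Tot (Al (p.U l) x) x l h < 1 →
      ∃ (y : V → ℝ) (l' : J → ℕ) (h' : J → ℝ), p.Inv z y l' h' ∧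
        Al (p.U l') y = ∅ ∧ p.Tot ∅ y l' h' < 1 := by
  induction n with
  | zero =>
    intro x l h hc hI h3
    have he := Finset.card_eq_zero.1 (Nat.le_zero.1 hc)
    rw [he] at h3
    exact ⟨x, l, h, hI, he, h3⟩
  | succ n ih =>
    intro x l h hc hI h3
    rcases (Al (p.U l) x).eq_empty_or_nonempty with he | ⟨q, hq⟩
    · rw [he] at h3
      exact ⟨x, l, h, hI, he, h3⟩
    · have hbp : ‖bv p.c p.κ l q‖ ≤ 1 := by
        have g0 := p.mem_U.1 (mem_Al.1 hq).1
        have g1 : ‖bv p.c p.κ l q‖ ^ 2 ≤ 1 := by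
          rw [normsq_bv p.c p.κ_pos]
          calc ∑ j, 2 ^ l j / p.κ * p.c j q ^ 2 = load p.c l q / p.κ := by
                unfold load
                rw [Finset.sum_div]
                exact Finset.sum_congr rfl fun j _ => by ring
            _ ≤ 1 := by rw [div_le_one p.κ_pos]; exact g0
        have g2 : ‖bv p.c p.κ l q‖ ^ 2 ≤ 1 ^ 2 := by rw [one_pow]; exact g1
        exact (abs_le_of_sq_le_sq' g2 zero_le_one).2
      obtain ⟨E, hE, hb⟩ := phase_E p.c p.κ_pos l hI.hx hq hbp
      have hsm := p.Sm_Tot (p.U l) l h (hE.const 1) hb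
      have hlt : E (fun y => p.Tot (Al (p.U l) y) y l h) < 1 := lt_of_le_of_lt hsm h3
      obtain ⟨y, ⟨y1, y0, y2, y3⟩, y4⟩ := hE.exists_lt hlt
      have y4' : p.Tot (Al (p.U l) y) y l h < 1 := y4
      obtain ⟨l', h', r1, r2, r3, r4⟩ := p.relevel (z := z) y4' (fun j hj => by
          have g1 := y3 j
          have g2 := hI.h1 j hj
          have g3 := gp_sq_ge p.κ_pos (p.zz_nonneg j (l j)) (l j)
          have g4 : |rs p.c y j - rs p.c x j| ≤ gp p.κ (p.zz j (l j)) (l j) / 3 := by
            apply abs_le_of_sq_le_sq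
            · rw [div_pow]; linarith
            · have := gp_nonneg p.κ (p.zz j (l j)) (l j)
              positivity
          have e : rs p.c y j - h j = (rs p.c y j - rs p.c x j) + (rs p.c x j - h j) := by ring
          rw [e]
          refine (abs_add_le _ _).trans_lt ?_
          linarith) hI.h3 Finset.univ
      have hll : ∀ j, l j ≤ l' j := by
        intro j
        rcases r2 j (Finset.mem_univ j) with hh | hh
        · exact hh.1.ge
        · rw [hh.2.1]; exact Nat.le_succ _
      have hWW : p.U l' ⊆ p.U l := p.U_anti hll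
      have hAA : Al (p.U l') y ⊆ Al (p.U l) y := Finset.filter_subset_filter _ hWW
      refine ih y l' h' ?_ ⟨y1, fun j hj => ?_, fun j hj => ?_, r3, fun i hi => ?_⟩ ?_
      · have g1 := Finset.card_le_card (hAA.trans y2)
        rw [Finset.card_erase_of_mem hq] at g1
        omega
      · rcases r2 j (Finset.mem_univ j) with hh | hh
        · rw [hh.1]; exact hI.hl j hj
        · rw [hh.2.1]
          rcases hh.1 with h5 | h5
          · exact absurd h5 hj
          · exact h5
      · rcases r2 j (Finset.mem_univ j) with hh | hh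
        · rw [hh.1, hh.2.1]
          apply hh.2.2
          unfold Mv at hj ⊢
          rw [hh.1] at hj
          exact hj
        · rw [hh.2.2, sub_self, abs_zero]
          exact gp_pos p.κ_pos (p.zz_nonneg _ _) _
      · rw [y0 i (fun hh => by
          have g1 := (mem_Al.1 hh).2
          rw [hI.h4 i hi, hi] at g1
          exact absurd g1 (lt_irrefl _))]
        exact hI.h4 i hi
      · exact lt_of_le_of_lt (p.Tot_mono hAA y l' h') (r4.trans_lt y4')

theorem a1_sum_le {T : ℝ} (hcol : ∀ i, ∑ j, p.c j i ^ 2 ≤ T) (B : Finset V) :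
    ∑ j, p.a1 B j ≤ T * B.card := by
  calc ∑ j, p.a1 B j ≤ ∑ j, ∑ v ∈ B, p.c j v ^ 2 := by
        refine Finset.sum_le_sum fun j _ => ?_
        unfold a1
        split_ifs
        · exact le_refl _
        · exact Finset.sum_nonneg fun v _ => sq_nonneg _
    _ = ∑ v ∈ B, ∑ j, p.c j v ^ 2 := Finset.sum_comm
    _ ≤ ∑ _v ∈ B, T := Finset.sum_le_sum fun v _ => hcol v
    _ = T * B.card := by rw [Finset.sum_const, nsmul_eq_mul]; ring

theorem a2_sum_le {T : ℝ} (hcol : ∀ i, ∑ j, p.c j i ^ 2 ≤ T) (v : V) : ∑ j, p.a2 v j ≤ T := by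
  refine le_trans (Finset.sum_le_sum fun j _ => ?_) (hcol v)
  unfold a2
  split_ifs
  · exact sq_nonneg _
  · exact le_refl _

/-- the abstract walk -/
theorem walk_abs {T : ℝ} (hT : T ≤ p.κ) (hcol : ∀ i, ∑ j, p.c j i ^ 2 ≤ T)
    (hsum : ∑ t, p.om t * exp (6 * p.ν * (T * (p.A t).card))
      + Fintype.card V * exp (-(p.μ * (p.κ / 2)) + 6 * p.μ * T)
      + Fintype.card J * (exp (-(p.lm * p.G)) * (2 * exp (p.κ * p.lm ^ 2 / 2 ^ p.K / 2))) < 1)
    {z : V → ℝ} (hz : ∀ i, |z i| ≤ 1) :
    ∃ y : V → ℝ, (∀ i, |y i| ≤ 1) ∧ (∀ i, |z i| = 1 → y i = z i) ∧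
      (∀ j, p.one j → ∃ l, |rs p.c y j - rs p.c z j| ≤ p.Hw j l) ∧
      (∀ j, ¬ p.one j → |rs p.c y j - rs p.c z j| ≤ p.Hw j p.K + p.G) ∧
      ∑ t, (if ∀ v ∈ p.A t, |y v| < 1 then p.om t * exp (p.ν * (p.κ / 2) * (p.A t).card) else 0) < 1 := by
  have hU0 : p.U (fun _ => 0) = Finset.univ := by
    ext v
    rw [mem_U]
    simp only [Finset.mem_univ, iff_true]
    unfold load
    simp only [pow_zero, one_mul]
    exact (hcol v).trans hT
  have hinit : p.Tot (Al (p.U (fun _ => 0)) z) z (fun _ => 0) (rs p.c z) < 1 := by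
    refine lt_of_le_of_lt ?_ hsum
    unfold Tot
    refine add_le_add (add_le_add ?_ ?_) ?_
    · refine Finset.sum_le_sum fun t _ => ?_
      unfold T1
      refine mul_le_mul_of_nonneg_left ?_ (p.hom t)
      rw [hU0]
      have e1 : p.A t \ Finset.univ = ∅ := by
        ext v; simp
      rw [e1, Finset.card_empty, Nat.cast_zero, mul_zero, exp_zero, one_mul, Finset.inter_univ]
      refine (PP_init p.c p.κ_pos p.hν p.zz_nonneg p.zz_zero (p.a1_nonneg _)
        (fun j => ?_) _ z).trans ?_
      · have h1 := p.a1_le (t := t) (l := fun _ => 0) j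
        rw [hU0, Finset.inter_univ, pow_zero, mul_one] at h1
        exact h1.trans (p.zz_zero j)
      · apply exp_le_exp.2
        exact mul_le_mul_of_nonneg_left (p.a1_sum_le hcol _) (by have := p.hν; positivity)
    · have e2 : (Fintype.card V : ℝ) * exp (-(p.μ * (p.κ / 2)) + 6 * p.μ * T)
          = ∑ _v : V, exp (-(p.μ * (p.κ / 2)) + 6 * p.μ * T) := by
        simp
      rw [e2]
      refine Finset.sum_le_sum fun v _ => ?_
      unfold T2
      rw [exp_add]
      refine mul_le_mul_of_nonneg_left ?_ (exp_pos _).le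
      refine (PP_init p.c p.κ_pos p.hμ.le p.zz_nonneg p.zz_zero (p.a2_nonneg _)
        (fun j => ?_) _ z).trans ?_
      · unfold a2
        split_ifs with h1
        · rw [mul_zero]; exact zero_le_one
        · refine le_trans ?_ (p.h2 j v h1)
          have g1 : (1 : ℝ) ≤ 2 ^ p.K := one_le_pow₀ (by norm_num)
          have g2 : 0 ≤ p.μ * p.c j v ^ 2 := mul_nonneg p.hμ.le (sq_nonneg _)
          nlinarith
      · apply exp_le_exp.2
        exact mul_le_mul_of_nonneg_left (p.a2_sum_le hcol v) (by have := p.hμ; positivity)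
    · have e3 : (Fintype.card J : ℝ) * (exp (-(p.lm * p.G))
            * (2 * exp (p.κ * p.lm ^ 2 / 2 ^ p.K / 2)))
          = ∑ _j : J, exp (-(p.lm * p.G)) * (2 * exp (p.κ * p.lm ^ 2 / 2 ^ p.K / 2)) := by
        simp
      rw [e3]
      refine Finset.sum_le_sum fun S _ => ?_
      unfold T3
      refine mul_le_mul_of_nonneg_left ?_ (exp_pos _).le
      split_ifs with h1 h2
      · positivity
      · have h5 := QQ_start p.c p.κ_pos p.lm S (Al (p.U (fun _ => 0)) z) z (fun _ => 0)
          (rs p.c z) rfl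
        have h6 : (2 : ℝ) ^ ((fun _ : J => 0) S) = 2 ^ p.K := by rw [h2]
        rw [h6] at h5
        exact h5
      · exact le_refl _
  obtain ⟨y, l, h, hI, y2, y5⟩ := p.main_induction z _ z (fun _ => 0) (rs p.c z) le_rfl
    ⟨hz, fun j _ => Nat.zero_le _,
      fun j _ => by rw [sub_self, abs_zero]; exact gp_pos p.κ_pos (p.zz_nonneg _ _) _,
      fun j => by rw [sub_self, abs_zero]; unfold Hw; simp,
      fun i _ => rfl⟩ hinit
  refine ⟨y, hI.hx, hI.h4, fun j hj => ⟨l j + 1, ?_⟩, fun j hj => ?_, ?_⟩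
  · have g1 := hI.h1 j (Or.inl hj)
    have g2 := hI.h3 j
    have g3 := gp_nonneg p.κ (p.zz j (l j)) (l j)
    have e : rs p.c y j - rs p.c z j = (rs p.c y j - h j) + (h j - rs p.c z j) := by ring
    rw [e]
    refine (abs_add_le _ _).trans ?_
    unfold Hw at g2 ⊢
    rw [Finset.sum_range_succ]
    linarith
  · have g2 := hI.h3 j
    have e : rs p.c y j - rs p.c z j = (rs p.c y j - h j) + (h j - rs p.c z j) := by ring
    rw [e]
    refine (abs_add_le _ _).trans ?_
    have hG : 0 ≤ p.G ∨ l j < p.K := by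
      rcases (hI.hl j hj).lt_or_eq with h5 | h5
      · exact Or.inr h5
      · left
        have h6 : ∑ S, p.T3 S ∅ y l h < 1 := by
          refine lt_of_le_of_lt ?_ y5
          have g1 := p.s1_nonneg ∅ y l h
          have g3 := p.s2_nonneg ∅ y l h
          unfold Tot
          linarith
        exact (abs_nonneg _).trans (p.top_lt h6 hj h5).le
    rcases (hI.hl j hj).lt_or_eq with h5 | h5
    · have g1 := hI.h1 j (Or.inr h5)
      have g3 := gp_nonneg p.κ (p.zz j (l j)) (l j)
      have g4 : p.Hw j (l j + 1) ≤ p.Hw j p.K := p.Hw_mono j h5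
      have g5 : p.Hw j (l j + 1) = p.Hw j (l j) + 4 / 3 * gp p.κ (p.zz j (l j)) (l j) := by
        unfold Hw; rw [Finset.sum_range_succ]
      have g6 : 0 ≤ p.G := by
        by_contra hneg
        push Not at hneg
        have h7 : (1 : ℝ) ≤ Fintype.card J := by
          have : 0 < Fintype.card J := Fintype.card_pos_iff.2 ⟨j⟩
          exact_mod_cast this
        have h8 : 1 ≤ exp (-(p.lm * p.G)) := one_le_exp (by nlinarith [p.hlm])
        have h9 : 1 ≤ exp (p.κ * p.lm ^ 2 / 2 ^ p.K / 2) := one_le_exp (by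
          have := p.κ_pos; positivity)
        have h10 : 0 ≤ ∑ t, p.om t * exp (6 * p.ν * (T * (p.A t).card)) :=
          Finset.sum_nonneg fun t _ => mul_nonneg (p.hom t) (exp_pos _).le
        have h11 : 0 ≤ (Fintype.card V : ℝ) * exp (-(p.μ * (p.κ / 2)) + 6 * p.μ * T) := by positivity
        have h12 : 1 ≤ exp (-(p.lm * p.G)) * (2 * exp (p.κ * p.lm ^ 2 / 2 ^ p.K / 2)) := by
          nlinarith
        have h13 : 1 ≤ (Fintype.card J : ℝ) * (exp (-(p.lm * p.G))
            * (2 * exp (p.κ * p.lm ^ 2 / 2 ^ p.K / 2))) := by nlinarith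
        linarith
      linarith
    · have h6 : ∑ S, p.T3 S ∅ y l h < 1 := by
        refine lt_of_le_of_lt ?_ y5
        have g1 := p.s1_nonneg ∅ y l h
        have g3 := p.s2_nonneg ∅ y l h
        unfold Tot
        linarith
      have g1 := p.top_lt h6 hj h5
      rw [← h5]
      linarith
  · refine lt_of_le_of_lt ?_ y5
    have g2 := p.s2_nonneg ∅ y l h
    have g3 := p.s3_nonneg ∅ y l h
    have g1 : ∑ t, (if ∀ v ∈ p.A t, |y v| < 1 then p.om t * exp (p.ν * (p.κ / 2) * (p.A t).card) else 0)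
        ≤ ∑ t, p.T1 t ∅ y l h := by
      refine Finset.sum_le_sum fun t _ => ?_
      split_ifs with h5
      · unfold T1
        refine mul_le_mul_of_nonneg_left ?_ (p.hom t)
        have hnot : ∀ v ∈ p.A t, v ∉ p.U l := by
          intro v hv hvU
          have : v ∈ Al (p.U l) y := mem_Al.2 ⟨hvU, h5 v hv⟩
          rw [y2] at this
          exact absurd this (Finset.notMem_empty v)
        have e1 : p.A t \ p.U l = p.A t := by
          ext v
          simp only [Finset.mem_sdiff]
          exact ⟨fun hh => hh.1, fun hh => ⟨hh, hnot v hh⟩⟩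
        have e2 : p.a1 (p.A t ∩ p.U l) = fun _ => 0 := by
          have e3 : p.A t ∩ p.U l = ∅ := by
            ext v
            simp only [Finset.mem_inter, Finset.notMem_empty, iff_false]
            exact fun hh => hnot v hh.1 hh.2
          funext j
          rw [e3]
          unfold a1
          simp
        rw [e1, e2]
        have h6 := PP_zero p.c p.κ p.zz p.ν ∅ y l h
        have h7 := exp_pos (p.ν * (p.κ / 2) * (p.A t).card)
        nlinarith
      · exact p.T1_nonneg t ∅ y l h
    unfold Tot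
    linarith

end Prm

end Pool.Agent.Helper78.BO
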