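import Pool.Agent.Helper78.BO.WMain
import Pool.Agent.Helper22.LT.Num

namespace Pool.Agent.Helper78.BO

open Real Pool.Agent.Helper22.LT
open scoped Classical

theorem geo_le (n : ℕ) : ∑ k ∈ Finset.range n, √(1 / 2 : ℝ) ^ k ≤ 7 / 2 := by
  set r : ℝ := √(1 / 2) with hr
  have hr0 : 0 ≤ r := sqrt_nonneg _
  have hr1 : r ≤ 5 / 7 := by
    rw [hr, sqrt_le_left (by norm_num)]; norm_num
  have key : ∑ k ∈ Finset.range n, r ^ k ≤ 7 / 2 * (1 - r ^ n) := by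
    induction n with
    | zero => simp
    | succ n ih =>
      rw [Finset.sum_range_succ, pow_succ]
      have : 0 ≤ r ^ n := pow_nonneg hr0 n
      nlinarith
  have : 0 ≤ r ^ n := pow_nonneg hr0 n
  linarith

theorem sqrt_half_pow (k : ℕ) : √(1 / 2 ^ k : ℝ) = √(1 / 2 : ℝ) ^ k := by
  have hr2 : √(1 / 2 : ℝ) ^ 2 = 1 / 2 := sq_sqrt (by norm_num)
  rw [show (1 : ℝ) / 2 ^ k = (√(1 / 2 : ℝ) ^ k) ^ 2 by rw [← pow_mul, mul_comm, pow_mul, hr2]; simp,
    sqrt_sq (pow_nonneg (sqrt_nonneg _) k)]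

theorem cap_sum {ν κ : ℝ} (hν : 0 ≤ ν) (hν1 : ν ≤ 1) (hκ : 1 ≤ κ) (l : ℕ) :
    ∑ k ∈ Finset.range l, √((1 + ν * min (2 ^ k) κ) / 2 ^ k)
      ≤ 7 + √(2 * ν) * lg (ν * κ) + 7 / 2 * (1 + √ν) := by
  have hκ0 : 0 < κ := lt_of_lt_of_le one_pos hκ
  obtain ⟨M, hM1, hM2⟩ := exists_nat_pow_near hκ (show (1 : ℝ) < 2 by norm_num)
  have hterm1 : ∀ k : ℕ, √((1 + ν * min (2 ^ k) κ) / 2 ^ k) ≤ √(1 / 2 ^ k + ν) := by
    intro k
    apply sqrt_le_sqrt
    have hp : (0 : ℝ) < 2 ^ k := by positivity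
    rw [add_div]
    have h1 : ν * min (2 ^ k) κ ≤ ν * 2 ^ k := mul_le_mul_of_nonneg_left (min_le_left _ _) hν
    have h2 : ν * min (2 ^ k) κ / 2 ^ k ≤ ν := by rw [div_le_iff₀ hp]; exact h1
    linarith
  have hterm2 : ∀ i : ℕ, √((1 + ν * min (2 ^ (M + 1 + i)) κ) / 2 ^ (M + 1 + i))
      ≤ (1 + √ν) * √(1 / 2 : ℝ) ^ i := by
    intro i
    have hp : (0 : ℝ) < 2 ^ (M + 1 + i) := by positivity
    rw [← sqrt_half_pow]
    have h1 : (1 + ν * min (2 ^ (M + 1 + i)) κ) / 2 ^ (M + 1 + i) ≤ (1 + ν) * (1 / 2 ^ i) := by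
      rw [div_le_iff₀ hp]
      have h3 : ν * min (2 ^ (M + 1 + i)) κ ≤ ν * 2 ^ (M + 1) :=
        mul_le_mul_of_nonneg_left ((min_le_right _ _).trans hM2.le) hν
      have h4 : (1 + ν) * (1 / 2 ^ i) * 2 ^ (M + 1 + i) = (1 + ν) * 2 ^ (M + 1) := by
        rw [pow_add 2 (M + 1) i]
        field_simp
      rw [h4]
      have h5 : (1 : ℝ) ≤ 2 ^ (M + 1) := one_le_pow₀ (by norm_num)
      linarith
    refine (sqrt_le_sqrt h1).trans ?_
    rw [sqrt_mul (by linarith)]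
    apply mul_le_mul_of_nonneg_right _ (sqrt_nonneg _)
    rw [sqrt_le_left (by positivity)]
    have h6 := sq_sqrt hν
    nlinarith [sqrt_nonneg ν]
  have hsplit : ∑ k ∈ Finset.range l, √((1 + ν * min (2 ^ k) κ) / 2 ^ k)
      ≤ ∑ k ∈ Finset.range (M + 1 + l), √((1 + ν * min (2 ^ k) κ) / 2 ^ k) := by
    apply Finset.sum_le_sum_of_subset_of_nonneg
    · intro k hk
      rw [Finset.mem_range] at hk ⊢
      omega
    · intro k _ _
      exact sqrt_nonneg _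
  refine hsplit.trans ?_
  rw [Finset.sum_range_add]
  apply add_le_add
  · refine (Finset.sum_le_sum fun k _ => hterm1 k).trans ?_
    refine (sum_sqrt_le hν M).trans ?_
    rw [if_pos hν1, add_zero]
    apply add_le_add
    · have : 0 ≤ √(1 / 2 : ℝ) ^ (M + 1) := by positivity
      linarith
    · apply mul_le_mul_of_nonneg_left _ (sqrt_nonneg _)
      rcases hν.eq_or_lt with h0 | h0
      · rw [← h0]; simp
      · apply lg_mono (by positivity)
        exact mul_le_mul_of_nonneg_left hM1 hν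
  · refine (Finset.sum_le_sum fun i _ => hterm2 i).trans ?_
    rw [← Finset.mul_sum, mul_comm]
    apply mul_le_mul_of_nonneg_right (geo_le l)
    positivity

theorem lg_le {x : ℝ} (hx : 0 ≤ x) : lg x ≤ 3 / 2 * log (1 + x) := by
  have hl2 := Real.log_two_gt_d9
  unfold lg
  rw [max_le_iff]
  have h0 : 0 ≤ log (1 + x) := log_nonneg (by linarith)
  refine ⟨by linarith, ?_⟩
  rw [logb, div_le_iff₀ (by linarith)]
  rcases hx.eq_or_lt with h | h
  · rw [← h]; simp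
  · have h1 : log x ≤ log (1 + x) := log_le_log h (by linarith)
    nlinarith

variable {V J X : Type*} [Fintype V] [Fintype J] [Fintype X]

theorem Prm.Hw_one (p : Prm V J X) {j : J} (hj : p.one j) (l : ℕ) :
    p.Hw j l ≤ 8 * √p.κ * (7 + √(2 * p.ν) * lg (p.ν * p.κ) + 7 / 2 * (1 + √p.ν)) := by
  have e : p.Hw j l = 8 * √p.κ * ∑ k ∈ Finset.range l, √((1 + p.ν * min (2 ^ k) p.κ) / 2 ^ k) := by
    unfold Prm.Hw gp Prm.zz
    rw [Finset.mul_sum]
    refine Finset.sum_congr rfl fun k _ => ?_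
    rw [if_pos hj, mul_div_assoc, sqrt_mul p.κ_pos.le]
    ring
  rw [e]
  apply mul_le_mul_of_nonneg_left (cap_sum p.hν p.hν1 p.hκ l)
  positivity

theorem Prm.Hw_two (p : Prm V J X) {j : J} (hj : ¬ p.one j) (l : ℕ) :
    p.Hw j l ≤ 40 * √p.κ := by
  have e : p.Hw j l = 8 * √2 * √p.κ * ∑ k ∈ Finset.range l, √(1 / 2 : ℝ) ^ k := by
    unfold Prm.Hw gp Prm.zz
    rw [Finset.mul_sum]
    refine Finset.sum_congr rfl fun k _ => ?_
    rw [if_neg hj, ← sqrt_half_pow]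
    have e1 : p.κ * (1 + 1) / 2 ^ k = p.κ * 2 * (1 / 2 ^ k) := by ring
    rw [e1, sqrt_mul (by have := p.κ_pos; positivity), sqrt_mul p.κ_pos.le]
    ring
  rw [e]
  have h1 := geo_le l
  have h2 : √2 ≤ (10 / 7 : ℝ) := by
    rw [sqrt_le_left (by norm_num)]; norm_num
  have h3 : 0 ≤ √p.κ := sqrt_nonneg _
  have h4 : (0 : ℝ) ≤ √2 := sqrt_nonneg _
  calc 8 * √2 * √p.κ * ∑ k ∈ Finset.range l, √(1 / 2 : ℝ) ^ k ≤ 8 * √2 * √p.κ * (7 / 2) :=
        mul_le_mul_of_nonneg_left h1 (by positivity)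
    _ = √p.κ * (28 * √2) := by ring
    _ ≤ √p.κ * 40 := mul_le_mul_of_nonneg_left (by linarith) h3
    _ = _ := by ring

end Pool.Agent.Helper78.BO
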