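import Pool.Agent.Helper22.LT.Level

namespace Pool.Agent.Helper78.BO

open Real Pool.Agent.Helper26.Gsw Pool.Agent.Helper22.LT
open scoped RealInnerProductSpace Classical

/-- slope -/
noncomputable def el (κ z : ℝ) (l : ℕ) : ℝ := √(2 ^ l * (1 + z) / κ)

/-- gap -/
noncomputable def gp (κ z : ℝ) (l : ℕ) : ℝ := 6 * √(κ * (1 + z) / 2 ^ l)

theorem el_nonneg (κ z : ℝ) (l : ℕ) : 0 ≤ el κ z l := Real.sqrt_nonneg _

theorem el_sq {κ z : ℝ} (hκ : 0 < κ) (hz : 0 ≤ z) (l : ℕ) :
    κ * el κ z l ^ 2 = 2 ^ l * (1 + z) := by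
  unfold el
  rw [Real.sq_sqrt (by positivity)]
  field_simp

theorem el_succ {κ z z' : ℝ} (hκ : 0 < κ) (hz : 0 ≤ z) (hz' : 0 ≤ z') (h : z' ≤ 2 * z + 1) (l : ℕ) :
    el κ z' (l + 1) ≤ 2 * el κ z l := by
  have h1 := el_sq hκ hz l
  have h2 := el_sq hκ hz' (l + 1)
  have h3 : el κ z' (l + 1) ^ 2 ≤ (2 * el κ z l) ^ 2 := by
    have h4 : κ * el κ z' (l + 1) ^ 2 ≤ κ * (2 * el κ z l) ^ 2 := by
      have e : κ * (2 * el κ z l) ^ 2 = 4 * (κ * el κ z l ^ 2) := by ring
      rw [e, h1, h2]
      have hp : (0 : ℝ) < 2 ^ l := by positivity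
      have e2 : (2 : ℝ) ^ (l + 1) = 2 * 2 ^ l := by ring
      rw [e2]
      nlinarith
    exact le_of_mul_le_mul_left h4 hκ
  have h5 := el_nonneg κ z l
  exact (abs_le_of_sq_le_sq' h3 (by linarith)).2

theorem el_gp {κ z : ℝ} (hκ : 0 < κ) (hz : 0 ≤ z) (l : ℕ) :
    el κ z l * gp κ z l = 6 * (1 + z) := by
  unfold el gp
  have hp : (0 : ℝ) < 2 ^ l := by positivity
  have h : √(2 ^ l * (1 + z) / κ) * √(κ * (1 + z) / 2 ^ l) = 1 + z := by
    rw [← Real.sqrt_mul (by positivity)]
    have : 2 ^ l * (1 + z) / κ * (κ * (1 + z) / 2 ^ l) = (1 + z) ^ 2 := by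
      field_simp
    rw [this, Real.sqrt_sq (by positivity)]
  calc _ = 6 * (√(2 ^ l * (1 + z) / κ) * √(κ * (1 + z) / 2 ^ l)) := by ring
    _ = _ := by rw [h]

theorem gp_nonneg (κ z : ℝ) (l : ℕ) : 0 ≤ gp κ z l := by unfold gp; positivity

theorem gp_pos {κ z : ℝ} (hκ : 0 < κ) (hz : 0 ≤ z) (l : ℕ) : 0 < gp κ z l := by
  unfold gp
  have : 0 < κ * (1 + z) / 2 ^ l := by positivity
  have := Real.sqrt_pos.2 this
  positivity

theorem gp_sq_ge {κ z : ℝ} (hκ : 0 < κ) (hz : 0 ≤ z) (l : ℕ) :
    36 * (κ / 2 ^ l) ≤ gp κ z l ^ 2 := by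
  unfold gp
  rw [mul_pow, Real.sq_sqrt (by positivity)]
  have hp : (0 : ℝ) < 2 ^ l := by positivity
  have h1 : κ / 2 ^ l ≤ κ * (1 + z) / 2 ^ l := by
    apply div_le_div_of_nonneg_right _ hp.le
    nlinarith
  linarith

/-- scalar inequality of a level change -/
theorem lev_scalar {κ μ z z' : ℝ} (hκ : 0 < κ) (hμ : 0 ≤ μ) (hz : 0 ≤ z) (hz' : 0 ≤ z')
    (hzz : z' ≤ 2 * z + 1) (l : ℕ) {a : ℝ} (ha : 0 ≤ a) (ha1 : μ * 2 ^ l * a ≤ z) :
    2 * gc μ a (l + 1) 1 * exp (κ * (el κ z' (l + 1) + el κ z l) ^ 2 / 2 ^ l / 2)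
      ≤ gc μ a l 1 * exp (el κ z l * gp κ z l) := by
  rw [gc_one, gc_one, el_gp hκ hz]
  set w := μ * 2 ^ l * a with hw
  have hw0 : 0 ≤ w := by positivity
  have e1 : μ * 2 ^ (l + 1) * a = 2 * w := by rw [hw]; ring
  have e2 : exp (2 * w) = exp w ^ 2 := by
    rw [← exp_nat_mul]; norm_num
  rw [e1, e2]
  have h1 : 1 ≤ exp w := one_le_exp hw0
  have h2 : exp w ≤ exp z := exp_le_exp.2 ha1
  have h0 : 1 ≤ exp z := one_le_exp hz
  have hp : (0 : ℝ) < 2 ^ l := by positivity
  have h3 : κ * (el κ z' (l + 1) + el κ z l) ^ 2 / 2 ^ l / 2 ≤ 9 / 2 * (1 + z) := by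
    have g1 := el_sq hκ hz l
    have g2 := el_succ hκ hz hz' hzz l
    have g3 := el_nonneg κ z l
    have g4 := el_nonneg κ z' (l + 1)
    have g5 : (el κ z' (l + 1) + el κ z l) ^ 2 ≤ 9 * el κ z l ^ 2 := by nlinarith
    have g6 : κ * (el κ z' (l + 1) + el κ z l) ^ 2 ≤ 9 * (2 ^ l * (1 + z)) := by
      calc κ * (el κ z' (l + 1) + el κ z l) ^ 2 ≤ κ * (9 * el κ z l ^ 2) :=
            mul_le_mul_of_nonneg_left g5 hκ.le
        _ = 9 * (κ * el κ z l ^ 2) := by ring
        _ = _ := by rw [g1]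
    rw [div_div, div_le_iff₀ (by positivity)]
    nlinarith
  have h4 : exp (κ * (el κ z' (l + 1) + el κ z l) ^ 2 / 2 ^ l / 2) ≤ exp (9 / 2 * (1 + z)) :=
    exp_le_exp.2 h3
  have h5 : (4 : ℝ) ≤ exp (3 / 2) := by
    have h6 : exp (3 / 2) = exp 1 * exp (1 / 2) := by rw [← exp_add]; norm_num
    have h7 := Real.exp_one_gt_d9
    have h8 : (1 / 2 : ℝ) + 1 ≤ exp (1 / 2) := add_one_le_exp _
    rw [h6]
    nlinarith
  have h9 : 4 * exp z * exp (9 / 2 * (1 + z)) ≤ exp (6 * (1 + z)) := by
    calc 4 * exp z * exp (9 / 2 * (1 + z)) ≤ exp (3 / 2) * exp z * exp (9 / 2 * (1 + z)) := by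
          apply mul_le_mul_of_nonneg_right _ (exp_pos _).le
          exact mul_le_mul_of_nonneg_right h5 (exp_pos _).le
      _ = exp (3 / 2 + z + 9 / 2 * (1 + z)) := by rw [← exp_add, ← exp_add]
      _ ≤ _ := exp_le_exp.2 (by linarith)
  set A := exp w with hA
  have h10 : 2 * ((A ^ 2 - 1) / 2) * exp (κ * (el κ z' (l + 1) + el κ z l) ^ 2 / 2 ^ l / 2)
      ≤ (A ^ 2 - 1) * exp (9 / 2 * (1 + z)) := by
    have : 0 ≤ A ^ 2 - 1 := by nlinarith
    calc _ = (A ^ 2 - 1) * exp (κ * (el κ z' (l + 1) + el κ z l) ^ 2 / 2 ^ l / 2) := by ring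
      _ ≤ _ := mul_le_mul_of_nonneg_left h4 this
  refine h10.trans ?_
  have h11 : (A + 1) * exp (9 / 2 * (1 + z)) ≤ 1 / 2 * exp (6 * (1 + z)) := by
    have : (A + 1) * exp (9 / 2 * (1 + z)) ≤ (2 * exp z) * exp (9 / 2 * (1 + z)) :=
      mul_le_mul_of_nonneg_right (by linarith) (exp_pos _).le
    linarith
  have h12 : 0 ≤ A - 1 := by linarith
  calc (A ^ 2 - 1) * exp (9 / 2 * (1 + z)) = (A - 1) * ((A + 1) * exp (9 / 2 * (1 + z))) := by ring
    _ ≤ (A - 1) * (1 / 2 * exp (6 * (1 + z))) := mul_le_mul_of_nonneg_left h11 h12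
    _ = _ := by ring

variable {V J : Type*} [Fintype V] [Fintype J]

/-- summand, general slopes `e j` and coefficients `g j s` -/
noncomputable def GF (c : J → V → ℝ) (κ : ℝ) (g : J → Fin 3 → ℝ) (e : J → ℝ) (A : Finset V)
    (x : V → ℝ) (l : J → ℕ) (h : J → ℝ) (σ : J → Fin 3) : ℝ :=
  (∏ j, g j (σ j)) *
    exp (∑ j, sgn (σ j) * e j * (rs c x j - h j) + JJ c κ A l (fun j => sgn (σ j) * e j) / 2)

/-- potential -/
noncomputable def GP (c : J → V → ℝ) (κ : ℝ) (g : J → Fin 3 → ℝ) (e : J → ℝ) (A : Finset V)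
    (x : V → ℝ) (l : J → ℕ) (h : J → ℝ) : ℝ := ∑ σ : J → Fin 3, GF c κ g e A x l h σ

theorem GP_mono (c : J → V → ℝ) (κ : ℝ) {g : J → Fin 3 → ℝ} (hg : ∀ j s, 0 ≤ g j s) (e : J → ℝ)
    {A A' : Finset V} (hA : A' ⊆ A) (x : V → ℝ) (l : J → ℕ) (h : J → ℝ) :
    GP c κ g e A' x l h ≤ GP c κ g e A x l h := by
  unfold GP GF
  refine Finset.sum_le_sum fun σ _ => ?_
  apply mul_le_mul_of_nonneg_left
  · apply exp_le_exp.2
    have := JJ_mono c κ hA l (fun j => sgn (σ j) * e j)
    linarith
  · exact Finset.prod_nonneg fun j _ => hg _ _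

theorem GP_nonneg (c : J → V → ℝ) (κ : ℝ) {g : J → Fin 3 → ℝ} (hg : ∀ j s, 0 ≤ g j s) (e : J → ℝ)
    (A : Finset V) (x : V → ℝ) (l : J → ℕ) (h : J → ℝ) :
    0 ≤ GP c κ g e A x l h := by
  unfold GP GF
  refine Finset.sum_nonneg fun σ _ => mul_nonneg (Finset.prod_nonneg fun j _ => hg _ _) (exp_pos _).le

/-- level change -/
theorem GP_level (c : J → V → ℝ) {κ : ℝ} (hκ : 0 < κ) {g : J → Fin 3 → ℝ} (hg : ∀ j s, 0 ≤ g j s)
    (hg0 : ∀ j, g j 0 = 1) (hg12 : ∀ j, g j 2 = g j 1) {e : J → ℝ} (he : ∀ j, 0 ≤ e j)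
    (A : Finset V) (x : V → ℝ) (l : J → ℕ) (h : J → ℝ) (S : J) {D e' : ℝ} {g' : Fin 3 → ℝ}
    (hg' : ∀ s, 0 ≤ g' s) (hg0' : g' 0 = 1) (hg12' : g' 2 = g' 1) (he' : 0 ≤ e')
    (hD : D ≤ |rs c x S - h S|)
    (hsc : 2 * g' 1 * exp (κ * (e' + e S) ^ 2 / 2 ^ l S / 2) ≤ g S 1 * exp (e S * D)) :
    GP c κ (Function.update g S g') (Function.update e S e') A x (Function.update l S (l S + 1))
      (Function.update h S (rs c x S)) ≤ GP c κ g e A x l h := by
  have h3 : (3 : ℝ) * GP c κ (Function.update g S g') (Function.update e S e') A x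
      (Function.update l S (l S + 1)) (Function.update h S (rs c x S))
      ≤ 3 * GP c κ g e A x l h := by
    unfold GP
    rw [← sum_update _ S, ← sum_update _ S]
    refine Finset.sum_le_sum fun σ _ => ?_
    set R := ∏ j ∈ Finset.univ.erase S, g j (σ j) with hR
    set Q := ∑ j ∈ Finset.univ.erase S, sgn (σ j) * e j * (rs c x j - h j) with hQ
    have hR0 : 0 ≤ R := Finset.prod_nonneg fun j _ => hg _ _
    set lam : J → ℝ := fun j => sgn (σ j) * e j with hlam
    set E := rs c x S - h S with hE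
    have eold : ∀ s : Fin 3, GF c κ g e A x l h (Function.update σ S s)
        = R * (g S s * exp (sgn s * e S * E) *
            exp (Q + JJ c κ A l (Function.update lam S (sgn s * e S)) / 2)) := by
      intro s
      have e1 : ∏ j, g j (Function.update σ S s j) = g S s * R := by
        rw [← Finset.mul_prod_erase Finset.univ _ (Finset.mem_univ S), Function.update_self]
        congr 1
        refine Finset.prod_congr rfl fun j hj => ?_
        rw [Function.update_of_ne (Finset.ne_of_mem_erase hj)]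
      have e2 : ∑ j, sgn (Function.update σ S s j) * e j * (rs c x j - h j)
          = sgn s * e S * E + Q := by
        rw [← Finset.add_sum_erase Finset.univ _ (Finset.mem_univ S), Function.update_self]
        congr 1
        refine Finset.sum_congr rfl fun j hj => ?_
        rw [Function.update_of_ne (Finset.ne_of_mem_erase hj)]
      have e3 : (fun j => sgn (Function.update σ S s j) * e j)
          = Function.update lam S (sgn s * e S) := by
        funext j
        by_cases hj : j = S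
        · subst hj; simp
        · simp [Function.update_of_ne hj, hlam]
      unfold GF
      rw [e1, e2, e3, add_assoc, exp_add]
      ring
    have enew : ∀ s : Fin 3, GF c κ (Function.update g S g') (Function.update e S e') A x
          (Function.update l S (l S + 1))
          (Function.update h S (rs c x S)) (Function.update σ S s)
        = R * (g' s * exp (Q + JJ c κ A (Function.update l S (l S + 1))
              (Function.update lam S (sgn s * e')) / 2)) := by
      intro s
      have e1 : ∏ j, Function.update g S g' j (Function.update σ S s j)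
          = g' s * R := by
        rw [← Finset.mul_prod_erase Finset.univ _ (Finset.mem_univ S), Function.update_self,
          Function.update_self]
        congr 1
        refine Finset.prod_congr rfl fun j hj => ?_
        rw [Function.update_of_ne (Finset.ne_of_mem_erase hj),
          Function.update_of_ne (Finset.ne_of_mem_erase hj)]
      have e2 : ∑ j, sgn (Function.update σ S s j) * Function.update e S e' j
            * (rs c x j - Function.update h S (rs c x S) j) = Q := by
        rw [← Finset.add_sum_erase Finset.univ _ (Finset.mem_univ S), Function.update_self,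
          Function.update_self, Function.update_self, sub_self, mul_zero, zero_add]
        refine Finset.sum_congr rfl fun j hj => ?_
        rw [Function.update_of_ne (Finset.ne_of_mem_erase hj),
          Function.update_of_ne (Finset.ne_of_mem_erase hj),
          Function.update_of_ne (Finset.ne_of_mem_erase hj)]
      have e3 : (fun j => sgn (Function.update σ S s j) * Function.update e S e' j)
          = Function.update lam S (sgn s * e') := by
        funext j
        by_cases hj : j = S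
        · subst hj; simp
        · simp [Function.update_of_ne hj, hlam]
      unfold GF
      rw [e1, e2, e3]
      ring
    have hJJ : ∀ s s' : Fin 3, JJ c κ A (Function.update l S (l S + 1))
          (Function.update lam S (sgn s * e'))
        ≤ JJ c κ A l (Function.update lam S (sgn s' * e S))
          + κ * (sgn s * e' - sgn s' * e S) ^ 2 / 2 ^ l S := by
      intro s s'
      have := JJ_level c hκ A l (Function.update lam S (sgn s' * e S)) S
        (sgn s * e')
      rw [Function.update_idem, Function.update_self] at this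
      exact this
    simp only [eold, enew]
    rw [← Finset.mul_sum, ← Finset.mul_sum]
    refine mul_le_mul_of_nonneg_left ?_ hR0
    rw [Fin.sum_univ_three, Fin.sum_univ_three]
    rw [hg0, hg0', hg12, hg12']
    have hgs : 0 ≤ g S 1 := hg _ _
    have hgs' : 0 ≤ g' 1 := hg' _
    have hep0 : 0 ≤ e S := he S
    set X : Fin 3 → ℝ := fun s => exp (Q + JJ c κ A l (Function.update lam S (sgn s * e S)) / 2)
      with hX
    set X' : Fin 3 → ℝ := fun s => exp (Q + JJ c κ A (Function.update l S (l S + 1))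
              (Function.update lam S (sgn s * e')) / 2) with hX'
    set B := exp (κ * (e' + e S) ^ 2 / 2 ^ l S / 2) with hB
    have hX0 : X' 0 ≤ X 0 := by
      apply exp_le_exp.2
      have := hJJ 0 0
      rw [sgn_zero, zero_mul, zero_mul, sub_zero] at this
      have e : κ * (0 : ℝ) ^ 2 / 2 ^ l S = 0 := by ring
      rw [e] at this
      simp only [sgn_zero, zero_mul]
      linarith
    have hs1 : ∀ s : Fin 3, |sgn s| ≤ 1 := by
      intro s
      unfold sgn
      split_ifs <;> simp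
    have hXs : ∀ s s' : Fin 3, X' s ≤ B * X s' := by
      intro s s'
      rw [hB, hX, hX']
      simp only
      rw [← exp_add]
      apply exp_le_exp.2
      have h1 := hJJ s s'
      have h2 : (sgn s * e' - sgn s' * e S) ^ 2 ≤ (e' + e S) ^ 2 := by
        apply sq_le_sq'
        · have a1 := abs_le.1 (hs1 s)
          have a2 := abs_le.1 (hs1 s')
          nlinarith [a1.1, a1.2, a2.1, a2.2]
        · have a1 := abs_le.1 (hs1 s)
          have a2 := abs_le.1 (hs1 s')
          nlinarith [a1.1, a1.2, a2.1, a2.2]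
      have h4 : κ * (sgn s * e' - sgn s' * e S) ^ 2 / 2 ^ l S ≤ κ * (e' + e S) ^ 2 / 2 ^ l S := by
        apply div_le_div_of_nonneg_right _ (by positivity)
        exact mul_le_mul_of_nonneg_left h2 hκ.le
      linarith
    have hXpos : ∀ s, 0 < X s := fun s => exp_pos _
    have main : ∀ s' : Fin 3, |E| = sgn s' * E →
        g' 1 * X' 1 + g' 1 * X' 2 ≤ g S 1 * exp (sgn s' * e S * E) * X s' := by
      intro s' hDs
      have h1 := hXs 1 s'
      have h2 := hXs 2 s'
      have h4 : g' 1 * X' 1 + g' 1 * X' 2 ≤ (2 * g' 1 * B) * X s' := by nlinarith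
      refine h4.trans ?_
      refine (mul_le_mul_of_nonneg_right hsc (hXpos s').le).trans ?_
      refine mul_le_mul_of_nonneg_right ?_ (hXpos s').le
      refine mul_le_mul_of_nonneg_left ?_ hgs
      apply exp_le_exp.2
      have e : sgn s' * e S * E = e S * |E| := by rw [hDs]; ring
      rw [e]
      exact mul_le_mul_of_nonneg_left hD hep0
    have e10 : exp (sgn 0 * e S * E) = 1 := by rw [sgn_zero]; simp
    rw [e10]
    rcases le_total 0 E with hD0 | hD0
    · have h1 := main 1 (by rw [sgn_one, abs_of_nonneg hD0, one_mul])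
      have h2 : 0 ≤ g S 1 * exp (sgn 2 * e S * E) * X 2 := by
        have := hXpos 2
        positivity
      have h5 : (1 : ℝ) * X' 0 + g' 1 * X' 1 + g' 1 * X' 2
        ≤ 1 * 1 * X 0 + g S 1 * exp (sgn 1 * e S * E) * X 1 + g S 1 * exp (sgn 2 * e S * E) * X 2 := by
        linarith
      exact h5
    · have h1 := main 2 (by rw [sgn_two, abs_of_nonpos hD0]; ring)
      have h2 : 0 ≤ g S 1 * exp (sgn 1 * e S * E) * X 1 := by
        have := hXpos 1
        positivity
      have h5 : (1 : ℝ) * X' 0 + g' 1 * X' 1 + g' 1 * X' 2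
        ≤ 1 * 1 * X 0 + g S 1 * exp (sgn 1 * e S * E) * X 1 + g S 1 * exp (sgn 2 * e S * E) * X 2 := by
        linarith
      exact h5
  linarith

end Pool.Agent.Helper78.BO
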