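import Pool.Agent.Helper78.BO.WLock

namespace Pool.Agent.Helper78.BO

open Real Pool.Agent.Helper26.Gsw Pool.Agent.Helper22.LT
open scoped RealInnerProductSpace Classical

variable {V J : Type*} [Fintype V] [Fintype J]

/-- exponential test function -/
noncomputable def ex (c : J → V → ℝ) (κ : ℝ) (l : J → ℕ) (W : Finset V) (lam : J → ℝ)
    (y : V → ℝ) : ℝ :=
  exp (∑ j, lam j * rs c y j + JJ c κ (Al W y) l lam / 2)

theorem ex_tf (c : J → V → ℝ) {κ : ℝ} (hκ : 0 < κ) (l : J → ℕ) (W : Finset V) (lam : J → ℝ)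
    (x : V → ℝ) : ex c κ l W lam
      = exp (∑ j, lam j * rs c x j) • tf W (bv c κ l) (th κ l lam) x := by
  funext y
  simp only [Pi.smul_apply, smul_eq_mul]
  unfold ex tf mom
  rw [inner_th c hκ]
  have e : ∑ j, lam j * rs c y j
      = ∑ j, lam j * rs c x j + ∑ j, lam j * rs c (fun i => y i - x i) j := by
    rw [← Finset.sum_add_distrib]
    refine Finset.sum_congr rfl fun j _ => ?_
    rw [rs_sub]
    ring
  rw [e, exp_add, exp_add]
  unfold JJ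
  ring

theorem phase_E (c : J → V → ℝ) {κ : ℝ} (hκ : 0 < κ) (l : J → ℕ) {W : Finset V} {x : V → ℝ}
    (hx : ∀ i, |x i| ≤ 1) {p : V} (hp : p ∈ Al W x) (hbp : ‖bv c κ l p‖ ≤ 1) :
    ∃ E : ((V → ℝ) → ℝ) →ₗ[ℝ] ℝ,
      IsLaw {y : V → ℝ | (∀ i, |y i| ≤ 1) ∧ (∀ i, i ∉ Al W x → y i = x i) ∧
        Al W y ⊆ (Al W x).erase p ∧ ∀ j, (rs c y j - rs c x j) ^ 2 ≤ 4 * (κ / 2 ^ l j)} E ∧
        ∀ lam, E (ex c κ l W lam) ≤ ex c κ l W lam x := by
  obtain ⟨E, hE, hb⟩ := phase_main (bv c κ l) p hbp hx hp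
  refine ⟨E, hE.subset ?_, fun lam => ?_⟩
  · rintro y ⟨hy1, hy0, hy2, hy3⟩
    refine ⟨hy1, hy0, hy2, fun j => ?_⟩
    have h1 : ‖∑ i, (y i - x i) • bv c κ l i‖ ^ 2 ≤ 4 := by
      nlinarith [norm_nonneg (∑ i, (y i - x i) • bv c κ l i)]
    rw [normsq_comb c hκ l (fun i => y i - x i)] at h1
    have h2 : 2 ^ l j / κ * rs c (fun i => y i - x i) j ^ 2 ≤ 4 := by
      refine le_trans ?_ h1
      exact Finset.single_le_sum (f := fun j => 2 ^ l j / κ * rs c (fun i => y i - x i) j ^ 2)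
        (fun k _ => by positivity) (Finset.mem_univ j)
    rw [rs_sub] at h2
    have hp : (0 : ℝ) < 2 ^ l j := by positivity
    have e : (rs c y j - rs c x j) ^ 2
        = (2 ^ l j / κ * (rs c y j - rs c x j) ^ 2) * (κ / 2 ^ l j) := by
      field_simp
    rw [e]
    exact mul_le_mul_of_nonneg_right h2 (by positivity)
  · rw [ex_tf c hκ l W lam x, map_smul]
    simp only [Pi.smul_apply, smul_eq_mul]
    apply mul_le_mul_of_nonneg_left _ (exp_pos _).le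
    refine (hb (th κ l lam)).trans (le_of_eq ?_)
    unfold tf mom
    simp

/-- supermartingale functionals at `x` -/
def Sm (E : ((V → ℝ) → ℝ) →ₗ[ℝ] ℝ) (x : V → ℝ) (f : (V → ℝ) → ℝ) : Prop := E f ≤ f x

omit [Fintype V] in
theorem Sm.add {E : ((V → ℝ) → ℝ) →ₗ[ℝ] ℝ} {x : V → ℝ} {f g : (V → ℝ) → ℝ} (hf : Sm E x f)
    (hg : Sm E x g) : Sm E x (f + g) := by
  unfold Sm at *
  rw [map_add]
  exact add_le_add hf hg

omit [Fintype V] in
theorem Sm.smul {E : ((V → ℝ) → ℝ) →ₗ[ℝ] ℝ} {x : V → ℝ} {f : (V → ℝ) → ℝ} (hf : Sm E x f)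
    {r : ℝ} (hr : 0 ≤ r) : Sm E x (r • f) := by
  unfold Sm at *
  rw [map_smul]
  exact mul_le_mul_of_nonneg_left hf hr

omit [Fintype V] in
theorem Sm.sum {E : ((V → ℝ) → ℝ) →ₗ[ℝ] ℝ} {x : V → ℝ} {ι : Type*} (s : Finset ι)
    {f : ι → (V → ℝ) → ℝ} (hf : ∀ i ∈ s, Sm E x (f i)) : Sm E x (∑ i ∈ s, f i) := by
  unfold Sm at *
  rw [map_sum, Finset.sum_apply]
  exact Finset.sum_le_sum hf

theorem Sm_GP (c : J → V → ℝ) {κ : ℝ} {g : J → Fin 3 → ℝ} (hg : ∀ j s, 0 ≤ g j s) (e : J → ℝ)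
    (W : Finset V) (l : J → ℕ) (h : J → ℝ) {E : ((V → ℝ) → ℝ) →ₗ[ℝ] ℝ} {x : V → ℝ}
    (hE : ∀ lam, E (ex c κ l W lam) ≤ ex c κ l W lam x) :
    Sm E x (fun y => GP c κ g e (Al W y) y l h) := by
  have hfun : (fun y => GP c κ g e (Al W y) y l h)
      = ∑ σ : J → Fin 3, ((∏ j, g j (σ j)) * exp (-∑ j, sgn (σ j) * e j * h j)) •
          ex c κ l W (fun j => sgn (σ j) * e j) := by
    funext y
    simp only [Finset.sum_apply, Pi.smul_apply, smul_eq_mul]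
    unfold GP
    refine Finset.sum_congr rfl fun σ _ => ?_
    unfold GF ex
    rw [mul_assoc, ← exp_add]
    congr 2
    have e1 : ∑ j, sgn (σ j) * e j * (rs c y j - h j)
        = ∑ j, sgn (σ j) * e j * rs c y j - ∑ j, sgn (σ j) * e j * h j := by
      rw [← Finset.sum_sub_distrib]
      exact Finset.sum_congr rfl fun j _ => by ring
    rw [e1]
    ring
  rw [hfun]
  refine Sm.sum _ fun σ _ => Sm.smul (hE _) ?_
  exact mul_nonneg (Finset.prod_nonneg fun j _ => hg _ _) (exp_pos _).le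

theorem Sm_QQ (c : J → V → ℝ) {κ : ℝ} (lm : ℝ) (S : J)
    (W : Finset V) (l : J → ℕ) (h : J → ℝ) {E : ((V → ℝ) → ℝ) →ₗ[ℝ] ℝ} {x : V → ℝ}
    (hE : ∀ lam, E (ex c κ l W lam) ≤ ex c κ l W lam x) :
    Sm E x (fun y => QQ c κ lm S (Al W y) y l h) := by
  have key : ∀ (r : ℝ) (y : V → ℝ), ∑ j, (Pi.single S r : J → ℝ) j * rs c y j = r * rs c y S := by
    intro r y
    rw [Finset.sum_eq_single S]
    · simp
    · intro j _ hj
      simp [hj]
    · intro hc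
      exact absurd (Finset.mem_univ S) hc
  have hfun : (fun y => QQ c κ lm S (Al W y) y l h)
      = exp (-(lm * h S)) • ex c κ l W (Pi.single S lm)
        + exp (lm * h S) • ex c κ l W (Pi.single S (-lm)) := by
    funext y
    simp only [Pi.add_apply, Pi.smul_apply, smul_eq_mul]
    unfold QQ ex
    rw [← exp_add, ← exp_add, key, key]
    congr 2
    · ring
    · ring
  rw [hfun]
  exact (Sm.smul (hE _) (exp_pos _).le).add (Sm.smul (hE _) (exp_pos _).le)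

end Pool.Agent.Helper78.BO
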