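import Pool.Agent.Helper78.BO.WStep
import Pool.Agent.Helper22.LT.Main

namespace Pool.Agent.Helper78.BO

open Real Pool.Agent.Helper26.Gsw Pool.Agent.Helper22.LT
open scoped RealInnerProductSpace Classical

/-- data of the walk -/
structure Prm (V J X : Type*) [Fintype V] [Fintype J] [Fintype X] where
  c : J → V → ℝ
  one : J → Prop
  κ : ℝ
  ν : ℝ
  μ : ℝ
  lm : ℝ
  G : ℝ
  K : ℕ
  A : X → Finset V
  om : X → ℝ
  hκ : 1 ≤ κ
  hν : 0 ≤ ν
  hν1 : ν ≤ 1
  hμ : 0 < μ
  hlm : 0 < lm
  hc : ∀ j i, c j i ^ 2 ≤ 1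
  h2 : ∀ j i, ¬ one j → μ * 2 ^ K * c j i ^ 2 ≤ 1
  hA : ∀ t j, one j → ∀ u ∈ A t, ∀ v ∈ A t, u ≠ v → c j u = 0 ∨ c j v = 0
  hom : ∀ t, 0 ≤ om t

variable {V J X : Type*} [Fintype V] [Fintype J] [Fintype X]

namespace Prm

variable (p : Prm V J X)

theorem κ_pos : 0 < p.κ := lt_of_lt_of_le one_pos p.hκ

/-- caps -/
noncomputable def zz (j : J) (l : ℕ) : ℝ := if p.one j then p.ν * min (2 ^ l) p.κ else 1

theorem zz_nonneg (j : J) (l : ℕ) : 0 ≤ p.zz j l := by
  unfold zz
  split_ifs
  · exact mul_nonneg p.hν (le_min (by positivity) p.κ_pos.le)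
  · exact zero_le_one

theorem zz_zero (j : J) : p.zz j 0 ≤ 1 := by
  unfold zz
  split_ifs
  · rw [pow_zero]
    exact (mul_le_mul_of_nonneg_left (min_le_left _ _) p.hν).trans (by rw [mul_one]; exact p.hν1)
  · exact le_refl _

theorem zz_succ (j : J) (l : ℕ) : p.zz j (l + 1) ≤ 2 * p.zz j l + 1 := by
  unfold zz
  split_ifs
  · have h1 := p.κ_pos
    have h3 : (0 : ℝ) < 2 ^ l := by positivity
    have h4 : min ((2 : ℝ) ^ (l + 1)) p.κ ≤ 2 * min (2 ^ l) p.κ := by
      rcases le_total ((2 : ℝ) ^ l) p.κ with h | h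
      · rw [min_eq_left h]
        refine (min_le_left _ _).trans ?_
        rw [pow_succ]; linarith
      · rw [min_eq_right h]
        refine (min_le_right _ _).trans ?_
        linarith
    have h5 := mul_le_mul_of_nonneg_left h4 p.hν
    linarith
  · norm_num

/-- weights of a test -/
noncomputable def a1 (B : Finset V) (j : J) : ℝ := if p.one j then ∑ v ∈ B, p.c j v ^ 2 else 0

/-- weights of a column test -/
noncomputable def a2 (v : V) (j : J) : ℝ := if p.one j then 0 else p.c j v ^ 2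

theorem a1_nonneg (B : Finset V) (j : J) : 0 ≤ p.a1 B j := by
  unfold a1
  split_ifs
  · exact Finset.sum_nonneg fun v _ => sq_nonneg _
  · exact le_refl _

theorem a2_nonneg (v : V) (j : J) : 0 ≤ p.a2 v j := by
  unfold a2
  split_ifs
  · exact le_refl _
  · exact sq_nonneg _

/-- unfrozen columns -/
noncomputable def U (l : J → ℕ) : Finset V := Finset.univ.filter fun i => load p.c l i ≤ p.κ

theorem mem_U {l : J → ℕ} {i : V} : i ∈ p.U l ↔ load p.c l i ≤ p.κ := by simp [U]

theorem U_anti {l l' : J → ℕ} (h : ∀ j, l j ≤ l' j) : p.U l' ⊆ p.U l := by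
  intro i hi
  rw [mem_U] at hi ⊢
  refine le_trans (Finset.sum_le_sum fun j _ => ?_) hi
  exact mul_le_mul_of_nonneg_right (pow_le_pow_right₀ (by norm_num) (h j)) (sq_nonneg _)

/-- first part -/
noncomputable def T1 (t : X) (A : Finset V) (x : V → ℝ) (l : J → ℕ) (h : J → ℝ) : ℝ :=
  p.om t * (exp (p.ν * (p.κ / 2) * (p.A t \ p.U l).card) * PP p.c p.κ p.zz p.ν (p.a1 (p.A t ∩ p.U l)) A x l h)

/-- second part -/
noncomputable def T2 (v : V) (A : Finset V) (x : V → ℝ) (l : J → ℕ) (h : J → ℝ) : ℝ :=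
  exp (-(p.μ * (p.κ / 2))) * PP p.c p.κ p.zz p.μ (p.a2 v) A x l h

/-- third part -/
noncomputable def T3 (S : J) (A : Finset V) (x : V → ℝ) (l : J → ℕ) (h : J → ℝ) : ℝ :=
  exp (-(p.lm * p.G)) * (if p.one S then 0 else if l S = p.K then QQ p.c p.κ p.lm S A x l h
    else 2 * exp (p.κ * p.lm ^ 2 / 2 ^ p.K / 2))

/-- total potential -/
noncomputable def Tot (A : Finset V) (x : V → ℝ) (l : J → ℕ) (h : J → ℝ) : ℝ :=
  ∑ t, p.T1 t A x l h + ∑ v, p.T2 v A x l h + ∑ S, p.T3 S A x l h

theorem T1_nonneg (t : X) (A : Finset V) (x : V → ℝ) (l : J → ℕ) (h : J → ℝ) :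
    0 ≤ p.T1 t A x l h :=
  mul_nonneg (p.hom t) (mul_nonneg (exp_pos _).le
    (PP_nonneg p.c p.κ p.zz p.hν (p.a1_nonneg _) A x l h))

theorem T2_nonneg (v : V) (A : Finset V) (x : V → ℝ) (l : J → ℕ) (h : J → ℝ) :
    0 ≤ p.T2 v A x l h :=
  mul_nonneg (exp_pos _).le (PP_nonneg p.c p.κ p.zz p.hμ.le (p.a2_nonneg _) A x l h)

theorem T3_nonneg (S : J) (A : Finset V) (x : V → ℝ) (l : J → ℕ) (h : J → ℝ) :
    0 ≤ p.T3 S A x l h := by
  unfold T3
  refine mul_nonneg (exp_pos _).le ?_
  split_ifs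
  · exact le_refl _
  · exact QQ_nonneg _ _ _ _ _ _ _ _
  · positivity

theorem s1_nonneg (A : Finset V) (x : V → ℝ) (l : J → ℕ) (h : J → ℝ) :
    0 ≤ ∑ t, p.T1 t A x l h := Finset.sum_nonneg fun t _ => p.T1_nonneg t A x l h

theorem s2_nonneg (A : Finset V) (x : V → ℝ) (l : J → ℕ) (h : J → ℝ) :
    0 ≤ ∑ v, p.T2 v A x l h := Finset.sum_nonneg fun t _ => p.T2_nonneg t A x l h

theorem s3_nonneg (A : Finset V) (x : V → ℝ) (l : J → ℕ) (h : J → ℝ) :
    0 ≤ ∑ S, p.T3 S A x l h := Finset.sum_nonneg fun t _ => p.T3_nonneg t A x l h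

theorem Tot_mono {A A' : Finset V} (hA : A' ⊆ A) (x : V → ℝ) (l : J → ℕ) (h : J → ℝ) :
    p.Tot A' x l h ≤ p.Tot A x l h := by
  unfold Tot
  refine add_le_add (add_le_add ?_ ?_) ?_
  · refine Finset.sum_le_sum fun t _ => ?_
    unfold T1
    refine mul_le_mul_of_nonneg_left (mul_le_mul_of_nonneg_left ?_ (exp_pos _).le) (p.hom t)
    exact PP_mono p.c p.κ p.zz p.hν (p.a1_nonneg _) hA x l h
  · refine Finset.sum_le_sum fun v _ => ?_
    unfold T2
    refine mul_le_mul_of_nonneg_left ?_ (exp_pos _).le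
    exact PP_mono p.c p.κ p.zz p.hμ.le (p.a2_nonneg _) hA x l h
  · refine Finset.sum_le_sum fun S _ => ?_
    unfold T3
    refine mul_le_mul_of_nonneg_left ?_ (exp_pos _).le
    split_ifs
    · exact le_refl _
    · exact QQ_mono _ _ _ _ hA _ _ _
    · exact le_refl _

/-- load on the second kind of rows -/
noncomputable def ld2 (l : J → ℕ) (v : V) : ℝ := ∑ j, 2 ^ l j * p.a2 v j

theorem ld2_lt {A : Finset V} {x : V → ℝ} {l : J → ℕ} {h : J → ℝ}
    (hT : ∑ v, p.T2 v A x l h < 1) (v : V) : p.ld2 l v < p.κ / 2 := by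
  have h1 : p.T2 v A x l h ≤ ∑ v, p.T2 v A x l h :=
    Finset.single_le_sum (f := fun v => p.T2 v A x l h) (fun w _ => p.T2_nonneg w A x l h)
      (Finset.mem_univ v)
  have h2 := PP_ge p.c p.κ p.zz p.hμ.le (p.a2_nonneg v) A x l h
  have h3 : exp (-(p.μ * (p.κ / 2))) * exp (p.μ * p.ld2 l v) < 1 := by
    refine lt_of_le_of_lt ?_ (h1.trans_lt hT)
    exact mul_le_mul_of_nonneg_left h2 (exp_pos _).le
  rw [← exp_add, exp_lt_one_iff] at h3
  have h4 : p.μ * p.ld2 l v < p.μ * (p.κ / 2) := by linarith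
  exact lt_of_mul_lt_mul_left h4 p.hμ.le

theorem top_lt {A : Finset V} {x : V → ℝ} {l : J → ℕ} {h : J → ℝ}
    (hT : ∑ S, p.T3 S A x l h < 1) {S : J} (hS : ¬ p.one S) (hK : l S = p.K) :
    |rs p.c x S - h S| < p.G := by
  have h1 : p.T3 S A x l h ≤ ∑ S, p.T3 S A x l h :=
    Finset.single_le_sum (f := fun S => p.T3 S A x l h) (fun w _ => p.T3_nonneg w A x l h)
      (Finset.mem_univ S)
  have h2 := QQ_ge p.c p.κ p.lm S A x l h
  have h3 : exp (-(p.lm * p.G)) * exp (p.lm * |rs p.c x S - h S|) < 1 := by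
    refine lt_of_le_of_lt ?_ (h1.trans_lt hT)
    unfold T3
    rw [if_neg hS, if_pos hK]
    exact mul_le_mul_of_nonneg_left h2 (exp_pos _).le
  rw [← exp_add, exp_lt_one_iff] at h3
  have h4 : p.lm * |rs p.c x S - h S| < p.lm * p.G := by linarith
  exact lt_of_mul_lt_mul_left h4 p.hlm.le

theorem a1_le {t : X} {l : J → ℕ} (S : J) :
    p.ν * 2 ^ l S * p.a1 (p.A t ∩ p.U l) S ≤ p.zz S (l S) := by
  unfold a1 zz
  split_ifs with h
  · rw [mul_assoc]
    apply mul_le_mul_of_nonneg_left _ p.hν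
    set B := p.A t ∩ p.U l with hB
    by_cases hex : ∃ v ∈ B, p.c S v ≠ 0
    · obtain ⟨v, hv, hv0⟩ := hex
      have e : ∑ u ∈ B, p.c S u ^ 2 = p.c S v ^ 2 := by
        rw [Finset.sum_eq_single_of_mem v hv]
        intro u hu huv
        have hu' := (Finset.mem_inter.1 hu).1
        have hv' := (Finset.mem_inter.1 hv).1
        rcases p.hA t S h u hu' v hv' huv with h1 | h1
        · rw [h1]; norm_num
        · exact absurd h1 hv0
      rw [e]
      apply le_min
      · have := p.hc S v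
        have h3 : (0 : ℝ) < 2 ^ l S := by positivity
        nlinarith
      · have h4 := (p.mem_U).1 (Finset.mem_inter.1 hv).2
        refine le_trans ?_ h4
        unfold load
        exact Finset.single_le_sum (f := fun j => (2 : ℝ) ^ l j * p.c j v ^ 2)
          (fun k _ => by positivity) (Finset.mem_univ S)
    · push Not at hex
      have e : ∑ u ∈ B, p.c S u ^ 2 = 0 :=
        Finset.sum_eq_zero fun u hu => by rw [hex u hu]; norm_num
      rw [e, mul_zero]
      exact le_min (by positivity) p.κ_pos.le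
  · rw [mul_zero]; exact zero_le_one

theorem lock_test {t : X} {A : Finset V} {x : V → ℝ} {l l' : J → ℕ} {h : J → ℝ}
    (hl : ∀ j, l j ≤ l' j) (h2 : ∀ v, p.ld2 l' v < p.κ / 2) :
    exp (p.ν * (p.κ / 2) * (p.A t \ p.U l').card) * PP p.c p.κ p.zz p.ν (p.a1 (p.A t ∩ p.U l')) A x l' h
      ≤ exp (p.ν * (p.κ / 2) * (p.A t \ p.U l).card) *
        PP p.c p.κ p.zz p.ν (p.a1 (p.A t ∩ p.U l)) A x l' h := by
  have hUU := p.U_anti hl
  set B := p.A t ∩ p.U l with hB
  set B' := p.A t ∩ p.U l' with hB'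
  set Nw := B \ B' with hNw
  have hBB : B' ⊆ B := Finset.inter_subset_inter_left hUU
  have hcard : (p.A t \ p.U l').card = (p.A t \ p.U l).card + Nw.card := by
    have e1 : p.A t \ p.U l' = (p.A t \ p.U l) ∪ Nw := by
      ext v
      simp only [hNw, hB, hB', Finset.mem_sdiff, Finset.mem_union, Finset.mem_inter]
      constructor
      · rintro ⟨h1, h2⟩
        by_cases h3 : v ∈ p.U l
        · exact Or.inr ⟨⟨h1, h3⟩, fun hh => h2 hh.2⟩
        · exact Or.inl ⟨h1, h3⟩
      · rintro (⟨h1, h3⟩ | ⟨⟨h1, h3⟩, h4⟩)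
        · exact ⟨h1, fun hh => h3 (hUU hh)⟩
        · exact ⟨h1, fun hh => h4 ⟨h1, hh⟩⟩
    rw [e1, Finset.card_union_of_disjoint]
    rw [Finset.disjoint_left]
    intro v hv hv'
    simp only [hNw, hB, Finset.mem_sdiff, Finset.mem_inter] at hv hv'
    exact hv.2 hv'.1.2
  set T : Finset J := Finset.univ.filter fun j => p.one j ∧ ∃ v ∈ Nw, p.c j v ≠ 0 with hT
  have hlock := PP_lock p.c p.κ p.zz p.hν (p.a1_nonneg B) A x l' h T
  have ha : (fun j => if j ∈ T then 0 else p.a1 B j) = p.a1 B' := by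
    funext j
    by_cases hj : j ∈ T
    · rw [if_pos hj]
      rw [hT, Finset.mem_filter] at hj
      obtain ⟨-, hone, v, hv, hv0⟩ := hj
      unfold a1
      rw [if_pos hone]
      symm
      apply Finset.sum_eq_zero
      intro u hu
      have hvA : v ∈ p.A t := (Finset.mem_inter.1 (Finset.mem_sdiff.1 hv).1).1
      have huA : u ∈ p.A t := (Finset.mem_inter.1 hu).1
      have huv : u ≠ v := fun hh => (Finset.mem_sdiff.1 hv).2 (hh ▸ hu)
      rcases p.hA t j hone u huA v hvA huv with h1 | h1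
      · rw [h1]; norm_num
      · exact absurd h1 hv0
    · rw [if_neg hj]
      unfold a1
      split_ifs with hone
      · rw [← Finset.sum_sdiff hBB]
        have e0 : ∑ v ∈ B \ B', p.c j v ^ 2 = 0 := by
          apply Finset.sum_eq_zero
          intro v hv
          by_contra hne
          apply hj
          rw [hT, Finset.mem_filter]
          exact ⟨Finset.mem_univ _, hone, v, hv, fun h0 => hne (by rw [h0]; norm_num)⟩
        rw [e0, zero_add]
      · rfl
  rw [ha] at hlock
  have hsum : p.ν * (p.κ / 2) * Nw.card ≤ p.ν * ∑ j ∈ T, 2 ^ l' j * p.a1 B j := by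
    rw [mul_assoc]
    apply mul_le_mul_of_nonneg_left _ p.hν
    have e1 : ∑ v ∈ Nw, ∑ j ∈ T, (2 : ℝ) ^ l' j * p.c j v ^ 2 ≤ ∑ j ∈ T, 2 ^ l' j * p.a1 B j := by
      rw [Finset.sum_comm]
      refine Finset.sum_le_sum fun j hj => ?_
      rw [← Finset.mul_sum]
      apply mul_le_mul_of_nonneg_left _ (by positivity)
      unfold a1
      rw [if_pos (Finset.mem_filter.1 hj).2.1]
      exact Finset.sum_le_sum_of_subset_of_nonneg Finset.sdiff_subset fun v _ _ => sq_nonneg _
    refine le_trans ?_ e1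
    have e2 : p.κ / 2 * Nw.card = ∑ _v ∈ Nw, p.κ / 2 := by
      rw [Finset.sum_const, nsmul_eq_mul]; ring
    rw [e2]
    refine Finset.sum_le_sum fun v hv => ?_
    have hvU : v ∉ p.U l' := fun hh =>
      (Finset.mem_sdiff.1 hv).2 (Finset.mem_inter.2
        ⟨(Finset.mem_inter.1 (Finset.mem_sdiff.1 hv).1).1, hh⟩)
    rw [mem_U, not_le] at hvU
    have h5 := h2 v
    have e3 : load p.c l' v = p.ld2 l' v + ∑ j ∈ T, (2 : ℝ) ^ l' j * p.c j v ^ 2 := by
      unfold load ld2
      have e4 : ∑ j ∈ T, (2 : ℝ) ^ l' j * p.c j v ^ 2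
          = ∑ j, if j ∈ T then (2 : ℝ) ^ l' j * p.c j v ^ 2 else 0 := by
        rw [Finset.sum_ite_mem, Finset.univ_inter]
      rw [e4, ← Finset.sum_add_distrib]
      refine Finset.sum_congr rfl fun j _ => ?_
      unfold a2
      by_cases hone : p.one j
      · rw [if_pos hone, mul_zero, zero_add]
        by_cases hj : j ∈ T
        · rw [if_pos hj]
        · rw [if_neg hj]
          have : p.c j v = 0 := by
            by_contra hne
            apply hj
            rw [hT, Finset.mem_filter]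
            exact ⟨Finset.mem_univ _, hone, v, hv, hne⟩
          rw [this]; norm_num
      · have hj : j ∉ T := fun hh => hone (Finset.mem_filter.1 hh).2.1
        rw [if_neg hone, if_neg hj, add_zero]
    linarith
  rw [hcard]
  push_cast
  rw [mul_add, exp_add, mul_assoc]
  apply mul_le_mul_of_nonneg_left _ (exp_pos _).le
  refine le_trans ?_ hlock
  apply mul_le_mul_of_nonneg_right (exp_le_exp.2 hsum)
  exact PP_nonneg p.c p.κ p.zz p.hν (p.a1_nonneg _) A x l' h

theorem Tot_level {A : Finset V} {x : V → ℝ} {l : J → ℕ} {h : J → ℝ} (hlt : p.Tot A x l h < 1)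
    {S : J} (hS : p.one S ∨ l S < p.K) (hg : gp p.κ (p.zz S (l S)) (l S) ≤ |rs p.c x S - h S|) :
    p.Tot A x (Function.update l S (l S + 1)) (Function.update h S (rs p.c x S))
      ≤ p.Tot A x l h := by
  set l' := Function.update l S (l S + 1) with hl'
  set h' := Function.update h S (rs p.c x S) with hh'
  have hll : ∀ j, l j ≤ l' j := by
    intro j
    by_cases hj : j = S
    · subst hj; rw [hl', Function.update_self]; exact Nat.le_succ _
    · rw [hl', Function.update_of_ne hj]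
  have q2 : ∀ v, p.T2 v A x l' h' ≤ p.T2 v A x l h := by
    intro v
    unfold T2
    refine mul_le_mul_of_nonneg_left ?_ (exp_pos _).le
    refine PP_level p.c p.κ_pos p.hμ.le p.zz_nonneg p.zz_succ (p.a2_nonneg v) A x l h S ?_ hg
    unfold a2
    split_ifs with h1
    · rw [mul_zero]; exact p.zz_nonneg _ _
    · have h2 : l S < p.K := by
        rcases hS with h3 | h3
        · exact absurd h3 h1
        · exact h3
      unfold zz
      rw [if_neg h1]
      refine le_trans ?_ (p.h2 S v h1)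
      apply mul_le_mul_of_nonneg_right _ (sq_nonneg _)
      apply mul_le_mul_of_nonneg_left _ p.hμ.le
      exact pow_le_pow_right₀ (by norm_num) h2.le
  have q3 : ∀ S', p.T3 S' A x l' h' ≤ p.T3 S' A x l h := by
    intro S'
    unfold T3
    refine mul_le_mul_of_nonneg_left ?_ (exp_pos _).le
    by_cases h1 : p.one S'
    · rw [if_pos h1, if_pos h1]
    · rw [if_neg h1, if_neg h1]
      by_cases h3 : S' = S
      · subst h3
        have h2 : l S' < p.K := by
          rcases hS with h3 | h3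
          · exact absurd h3 h1
          · exact h3
        rw [if_neg h2.ne]
        split_ifs with h4
        · have h5 := QQ_start p.c p.κ_pos p.lm S' A x l' h' (by rw [hh', Function.update_self])
          rw [h4] at h5
          exact h5
        · exact le_refl _
      · have e1 : l' S' = l S' := by rw [hl', Function.update_of_ne h3]
        rw [e1]
        split_ifs
        · exact QQ_level p.c p.κ_pos p.lm h3 A x l h _
        · exact le_refl _
  have s2 : ∑ v, p.T2 v A x l' h' ≤ ∑ v, p.T2 v A x l h := Finset.sum_le_sum fun v _ => q2 v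
  have s2' : ∑ v, p.T2 v A x l' h' < 1 := by
    refine lt_of_le_of_lt s2 (lt_of_le_of_lt ?_ hlt)
    have g1 := p.s1_nonneg A x l h
    have g3 := p.s3_nonneg A x l h
    unfold Tot
    linarith
  have q1 : ∀ t, p.T1 t A x l' h' ≤ p.T1 t A x l h := by
    intro t
    unfold T1
    refine mul_le_mul_of_nonneg_left ?_ (p.hom t)
    refine (p.lock_test hll (p.ld2_lt s2')).trans ?_
    refine mul_le_mul_of_nonneg_left ?_ (exp_pos _).le
    exact PP_level p.c p.κ_pos p.hν p.zz_nonneg p.zz_succ (p.a1_nonneg _) A x l h S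
      (p.a1_le S) hg
  unfold Tot
  exact add_le_add (add_le_add (Finset.sum_le_sum fun t _ => q1 t) s2)
    (Finset.sum_le_sum fun S' _ => q3 S')

theorem Sm_Tot (W : Finset V) (l : J → ℕ) (h : J → ℝ) {E : ((V → ℝ) → ℝ) →ₗ[ℝ] ℝ} {x : V → ℝ}
    (hone : E (fun _ => 1) = 1)
    (hE : ∀ lam, E (ex p.c p.κ l W lam) ≤ ex p.c p.κ l W lam x) :
    Sm E x (fun y => p.Tot (Al W y) y l h) := by
  have e : (fun y => p.Tot (Al W y) y l h) = ∑ t, (fun y => p.T1 t (Al W y) y l h)
      + ∑ v, (fun y => p.T2 v (Al W y) y l h) + ∑ S, (fun y => p.T3 S (Al W y) y l h) := by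
    funext y
    simp only [Pi.add_apply, Finset.sum_apply]
    rfl
  rw [e]
  refine (Sm.add (Sm.sum _ fun t _ => ?_) (Sm.sum _ fun v _ => ?_)).add (Sm.sum _ fun S _ => ?_)
  · have e1 : (fun y => p.T1 t (Al W y) y l h)
        = (p.om t * exp (p.ν * (p.κ / 2) * (p.A t \ p.U l).card)) •
          (fun y => GP p.c p.κ (fun j => gc p.ν (p.a1 (p.A t ∩ p.U l) j) (l j))
            (fun j => el p.κ (p.zz j (l j)) (l j)) (Al W y) y l h) := by
      funext y
      simp only [Pi.smul_apply, smul_eq_mul]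
      unfold T1 PP
      ring
    rw [e1]
    exact (Sm_GP p.c (fun j s => gc_nonneg p.hν (p.a1_nonneg _ j) _ _) _ W l h hE).smul
      (mul_nonneg (p.hom t) (exp_pos _).le)
  · have e1 : (fun y => p.T2 v (Al W y) y l h)
        = (exp (-(p.μ * (p.κ / 2)))) •
          (fun y => GP p.c p.κ (fun j => gc p.μ (p.a2 v j) (l j))
            (fun j => el p.κ (p.zz j (l j)) (l j)) (Al W y) y l h) := by
      funext y
      simp only [Pi.smul_apply, smul_eq_mul]
      rfl
    rw [e1]
    exact (Sm_GP p.c (fun j s => gc_nonneg p.hμ.le (p.a2_nonneg _ j) _ _) _ W l h hE).smul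
      (exp_pos _).le
  · by_cases h1 : p.one S
    · have e1 : (fun y => p.T3 S (Al W y) y l h) = 0 := by
        funext y
        unfold T3
        rw [if_pos h1, mul_zero]; rfl
      rw [e1]
      unfold Sm
      rw [map_zero]; exact le_refl _
    · by_cases h2 : l S = p.K
      · have e1 : (fun y => p.T3 S (Al W y) y l h)
            = exp (-(p.lm * p.G)) • (fun y => QQ p.c p.κ p.lm S (Al W y) y l h) := by
          funext y
          simp only [Pi.smul_apply, smul_eq_mul]
          unfold T3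
          rw [if_neg h1, if_pos h2]
        rw [e1]
        exact (Sm_QQ p.c p.lm S W l h hE).smul (exp_pos _).le
      · have e1 : (fun y => p.T3 S (Al W y) y l h)
            = (exp (-(p.lm * p.G)) * (2 * exp (p.κ * p.lm ^ 2 / 2 ^ p.K / 2))) •
              (fun _ : V → ℝ => (1 : ℝ)) := by
          funext y
          simp only [Pi.smul_apply, smul_eq_mul, mul_one]
          unfold T3
          rw [if_neg h1, if_neg h2]
        rw [e1]
        unfold Sm
        rw [map_smul, hone]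
        simp

end Prm

end Pool.Agent.Helper78.BO
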