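import Pool.Agent.Helper78.BO.WNum

/-!
The walk: real matrix with entries of square at most one and columns of norm^2 at most `T`.
The fractional elements `F` at the end satisfy a product law on sets of elements no two of
which meet a common row with entries of square above `al`.
-/

namespace Pool.Agent.Helper78.BO

open Real Pool.Agent.Helper22.LT
open scoped Classical

variable {V J X : Type*} [Fintype V] [Fintype J] [Fintype X]

/-- split matrix -/
noncomputable def spl (c : J → V → ℝ) (al : ℝ) : J ⊕ J → V → ℝ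
  | Sum.inl j, i => if al < c j i ^ 2 then c j i else 0
  | Sum.inr j, i => if al < c j i ^ 2 then 0 else c j i

omit [Fintype J] in
theorem rs_spl (c : J → V → ℝ) (al : ℝ) (x : V → ℝ) (j : J) :
    rs (spl c al) x (Sum.inl j) + rs (spl c al) x (Sum.inr j) = rs c x j := by
  unfold rs
  rw [← Finset.sum_add_distrib]
  refine Finset.sum_congr rfl fun i _ => ?_
  simp only [spl]
  split_ifs <;> ring

omit [Fintype V] in
theorem col_spl (c : J → V → ℝ) (al : ℝ) (i : V) :
    ∑ r, spl c al r i ^ 2 = ∑ j, c j i ^ 2 := by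
  rw [Fintype.sum_sum_type, ← Finset.sum_add_distrib]
  refine Finset.sum_congr rfl fun j _ => ?_
  simp only [spl]
  split_ifs <;> ring

omit [Fintype V] [Fintype J] in
theorem spl_sq_le (c : J → V → ℝ) (al : ℝ) {b : ℝ} (hb : 0 ≤ b) (hc : ∀ j i, c j i ^ 2 ≤ b)
    (r : J ⊕ J) (i : V) : spl c al r i ^ 2 ≤ b := by
  rcases r with j | j
  · simp only [spl]
    split_ifs
    · exact hc j i
    · rw [zero_pow (by norm_num)]; exact hb
  · simp only [spl]
    split_ifs
    · rw [zero_pow (by norm_num)]; exact hb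
    · exact hc j i

/-- no two elements of `A` have entries of square above `al` in a common row -/
def Sepd (c : J → V → ℝ) (al : ℝ) (A : Finset V) : Prop :=
  ∀ u ∈ A, ∀ v ∈ A, u ≠ v → ∀ j, ¬ (al < c j u ^ 2 ∧ al < c j v ^ 2)

theorem walk (c : J → V → ℝ) {T κ ν al L : ℝ} (hcol : ∀ i, ∑ j, c j i ^ 2 ≤ T)
    (hc : ∀ j i, c j i ^ 2 ≤ 1) (hκ1 : 1 ≤ κ) (hκ : 24 * T ≤ κ) (hT : 0 ≤ T) (hν : 0 ≤ ν)
    (hν1 : ν ≤ 1) (hal : 0 ≤ al) (hL : 1 ≤ L) (hV : 8 * (Fintype.card V : ℝ) ≤ exp L)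
    (hJ : 8 * (Fintype.card J : ℝ) ≤ exp L) (haL : 8 * al * L ^ 2 ≤ κ)
    (A : X → Finset V) (hA : ∀ t, Sepd c al (A t)) (om : X → ℝ) (hom : ∀ t, 0 ≤ om t)
    (hsum : ∑ t, om t * exp (-(ν * (κ / 2 - 6 * T) * (A t).card)) ≤ 1 / 4)
    {z : V → ℝ} (hz : ∀ i, |z i| ≤ 1) :
    ∃ y : V → ℝ, (∀ i, |y i| ≤ 1) ∧ (∀ i, |z i| = 1 → y i = z i) ∧
      (∀ j, |∑ i, c j i * (y i - z i)| ≤ 130 * √κ * (1 + √ν * (1 + log (1 + ν * κ)))) ∧
      ∑ t, (if ∀ v ∈ A t, |y v| < 1 then om t else 0) < 1 := by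
  have hκ0 : 0 < κ := lt_of_lt_of_le one_pos hκ1
  have hL0 : 0 < L := lt_of_lt_of_le one_pos hL
  obtain ⟨K0, hK1, hK2⟩ := exists_nat_pow_near hL (show (1 : ℝ) < 2 by norm_num)
  set K : ℕ := K0 + 1 with hK
  have hKL : L ≤ 2 ^ K := hK2.le
  have hKL2 : (2 : ℝ) ^ K ≤ 2 * L := by rw [hK, pow_succ]; linarith
  set μ : ℝ := 4 * L / κ with hμ
  have hμ0 : 0 < μ := by positivity
  have hμκ : μ * κ = 4 * L := by rw [hμ]; field_simp
  have hsκ : 0 < √κ := sqrt_pos.2 hκ0
  have hsκ2 : √κ ^ 2 = κ := sq_sqrt hκ0.le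
  let p : Prm V (J ⊕ J) X :=
    { c := spl c al
      one := fun r => r.isLeft = true
      κ := κ
      ν := ν
      μ := μ
      lm := L / √κ
      G := 2 * √κ
      K := K
      A := A
      om := fun t => om t * exp (-(ν * (κ / 2) * (A t).card))
      hκ := hκ1
      hν := hν
      hν1 := hν1
      hμ := hμ0
      hlm := by positivity
      hc := fun r i => spl_sq_le c al zero_le_one hc r i
      h2 := by
        intro r i hr
        rcases r with j | j
        · exact absurd rfl hr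
        · have h1 : spl c al (Sum.inr j) i ^ 2 ≤ al := by
            simp only [spl]
            split_ifs with h
            · rw [zero_pow (by norm_num)]; exact hal
            · exact not_lt.1 h
          have h2 : μ * 2 ^ K * al ≤ 1 := by
            calc μ * 2 ^ K * al ≤ μ * (2 * L) * al := by
                  apply mul_le_mul_of_nonneg_right _ hal
                  exact mul_le_mul_of_nonneg_left hKL2 hμ0.le
              _ = 8 * al * L ^ 2 / κ := by rw [hμ]; ring
              _ ≤ 1 := by rw [div_le_one hκ0]; exact haL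
          refine le_trans ?_ h2
          exact mul_le_mul_of_nonneg_left h1 (by positivity)
      hA := by
        intro t r hr u hu v hv huv
        rcases r with j | j
        · have h1 := hA t u hu v hv huv j
          simp only [spl]
          by_cases h2 : al < c j u ^ 2
          · right
            rw [if_neg (fun h3 => h1 ⟨h2, h3⟩)]
          · left
            rw [if_neg h2]
        · exact absurd hr (by simp)
      hom := fun t => mul_nonneg (hom t) (exp_pos _).le }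
  have hcol' : ∀ i, ∑ r, p.c r i ^ 2 ≤ T := fun i => by
    change ∑ r, spl c al r i ^ 2 ≤ T
    rw [col_spl]; exact hcol i
  have hTκ : T ≤ p.κ := by
    change T ≤ κ
    linarith
  have hsum' : ∑ t, p.om t * exp (6 * p.ν * (T * (p.A t).card))
      + Fintype.card V * exp (-(p.μ * (p.κ / 2)) + 6 * p.μ * T)
      + Fintype.card (J ⊕ J) * (exp (-(p.lm * p.G)) * (2 * exp (p.κ * p.lm ^ 2 / 2 ^ p.K / 2)))
      < 1 := by
    change ∑ t, om t * exp (-(ν * (κ / 2) * (A t).card)) * exp (6 * ν * (T * (A t).card))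
      + Fintype.card V * exp (-(μ * (κ / 2)) + 6 * μ * T)
      + Fintype.card (J ⊕ J) * (exp (-(L / √κ * (2 * √κ)))
        * (2 * exp (κ * (L / √κ) ^ 2 / 2 ^ K / 2))) < 1
    have p1 : ∑ t, om t * exp (-(ν * (κ / 2) * (A t).card)) * exp (6 * ν * (T * (A t).card))
        ≤ 1 / 4 := by
      refine le_trans (le_of_eq ?_) hsum
      refine Finset.sum_congr rfl fun t _ => ?_
      rw [mul_assoc, ← exp_add]
      congr 2
      ring
    have p2 : (Fintype.card V : ℝ) * exp (-(μ * (κ / 2)) + 6 * μ * T) ≤ 1 / 8 := by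
      have e1 : exp (-(μ * (κ / 2)) + 6 * μ * T) ≤ exp (-L) := by
        apply exp_le_exp.2
        have h1 : 6 * μ * T ≤ μ * (κ / 4) := by
          have := mul_le_mul_of_nonneg_left hκ hμ0.le
          linarith
        have h2 : μ * (κ / 2) = 2 * L := by linarith
        have h3 : μ * (κ / 4) = L := by linarith
        linarith
      have e2 : exp L * exp (-L) = 1 := by rw [← exp_add]; simp
      have e3 : 0 < exp (-L) := exp_pos _
      have e4 : (0 : ℝ) ≤ Fintype.card V := Nat.cast_nonneg _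
      have e5 := mul_le_mul_of_nonneg_right hV e3.le
      have e6 := mul_le_mul_of_nonneg_left e1 e4
      linarith
    have p3 : (Fintype.card (J ⊕ J) : ℝ) * (exp (-(L / √κ * (2 * √κ)))
        * (2 * exp (κ * (L / √κ) ^ 2 / 2 ^ K / 2))) ≤ 1 / 2 * (2 / 3) := by
      have e1 : L / √κ * (2 * √κ) = 2 * L := by field_simp
      have e2 : κ * (L / √κ) ^ 2 / 2 ^ K / 2 ≤ L / 2 := by
        have h1 : κ * (L / √κ) ^ 2 = L ^ 2 := by
          rw [div_pow, hsκ2]; field_simp
        rw [h1]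
        apply div_le_div_of_nonneg_right _ (by norm_num : (0 : ℝ) ≤ 2)
        rw [div_le_iff₀ (by positivity)]
        nlinarith
      rw [e1]
      have e3 : exp (κ * (L / √κ) ^ 2 / 2 ^ K / 2) ≤ exp (L / 2) := exp_le_exp.2 e2
      have e4 : (Fintype.card (J ⊕ J) : ℝ) = 2 * Fintype.card J := by
        rw [Fintype.card_sum]; push_cast; ring
      rw [e4]
      have e5 : exp (-(2 * L)) * (2 * exp (κ * (L / √κ) ^ 2 / 2 ^ K / 2))
          ≤ 2 * (exp (-L) * exp (-(L / 2))) := by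
        have h1 : exp (-(2 * L)) * (2 * exp (L / 2)) = 2 * (exp (-L) * exp (-(L / 2))) := by
          rw [← exp_add, mul_left_comm, ← exp_add]
          congr 2
          ring
        rw [← h1]
        apply mul_le_mul_of_nonneg_left _ (exp_pos _).le
        linarith
      have e6 : exp (-(L / 2)) ≤ 2 / 3 := by
        have h1 : exp (-(L / 2)) ≤ exp (-(1 / 2)) := exp_le_exp.2 (by linarith)
        have h2 : 1 / 2 + 1 ≤ exp (1 / 2 : ℝ) := add_one_le_exp _
        have h3 : exp (1 / 2 : ℝ) * exp (-(1 / 2)) = 1 := by rw [← exp_add]; simp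
        have h4 := exp_pos (-(1 / 2) : ℝ)
        nlinarith
      have e7 : exp L * exp (-L) = 1 := by rw [← exp_add]; simp
      have e8 : (0 : ℝ) ≤ Fintype.card J := Nat.cast_nonneg _
      have e9 := mul_le_mul_of_nonneg_right hJ (exp_pos (-L)).le
      have e10 : (Fintype.card J : ℝ) * exp (-L) ≤ 1 / 8 := by linarith
      have e11 : 0 < exp (-(L / 2)) := exp_pos _
      calc 2 * (Fintype.card J : ℝ) * (exp (-(2 * L)) * (2 * exp (κ * (L / √κ) ^ 2 / 2 ^ K / 2)))
          ≤ 2 * (Fintype.card J : ℝ) * (2 * (exp (-L) * exp (-(L / 2)))) :=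
            mul_le_mul_of_nonneg_left e5 (by positivity)
        _ = 4 * ((Fintype.card J : ℝ) * exp (-L)) * exp (-(L / 2)) := by ring
        _ ≤ 4 * (1 / 8) * exp (-(L / 2)) := by
            apply mul_le_mul_of_nonneg_right _ e11.le
            linarith
        _ ≤ 4 * (1 / 8) * (2 / 3) := by linarith
        _ = 1 / 2 * (2 / 3) := by norm_num
    linarith
  obtain ⟨y, y1, y2, y3, y4, y5⟩ := p.walk_abs hTκ hcol' hsum' hz
  refine ⟨y, y1, y2, fun j => ?_, ?_⟩
  · have e1 : ∑ i, c j i * (y i - z i) = rs c y j - rs c z j := by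
      rw [← rs_sub]; rfl
    rw [e1, ← rs_spl c al y j, ← rs_spl c al z j]
    obtain ⟨l, hl⟩ := y3 (Sum.inl j) rfl
    have h1 : |rs (spl c al) y (Sum.inl j) - rs (spl c al) z (Sum.inl j)|
        ≤ 8 * √κ * (7 + √(2 * ν) * lg (ν * κ) + 7 / 2 * (1 + √ν)) :=
      hl.trans (p.Hw_one (j := Sum.inl j) rfl l)
    have hnot : ¬ p.one (Sum.inr j) := fun hh => absurd hh (by simp [p])
    have h2 : |rs (spl c al) y (Sum.inr j) - rs (spl c al) z (Sum.inr j)|
        ≤ 40 * √κ + 2 * √κ :=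
      (y4 (Sum.inr j) hnot).trans (add_le_add (p.Hw_two hnot p.K) (le_refl _))
    have h3 : lg (ν * κ) ≤ 3 / 2 * log (1 + ν * κ) := lg_le (by positivity)
    have h4 : √(2 * ν) ≤ 3 / 2 * √ν := by
      rw [sqrt_mul (by norm_num)]
      apply mul_le_mul_of_nonneg_right _ (sqrt_nonneg _)
      rw [sqrt_le_left (by norm_num)]; norm_num
    have h5 : √(2 * ν) * lg (ν * κ) ≤ 3 / 2 * √ν * (3 / 2 * log (1 + ν * κ)) :=
      mul_le_mul h4 h3 (lg_nonneg _) (by positivity)
    have hlog : 0 ≤ log (1 + ν * κ) := log_nonneg (by nlinarith)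
    have hsν : 0 ≤ √ν := sqrt_nonneg _
    have e2 : rs (spl c al) y (Sum.inl j) + rs (spl c al) y (Sum.inr j)
        - (rs (spl c al) z (Sum.inl j) + rs (spl c al) z (Sum.inr j))
        = (rs (spl c al) y (Sum.inl j) - rs (spl c al) z (Sum.inl j))
          + (rs (spl c al) y (Sum.inr j) - rs (spl c al) z (Sum.inr j)) := by ring
    rw [e2]
    refine (abs_add_le _ _).trans ((add_le_add h1 h2).trans ?_)
    have h6 : 8 * √κ * (7 + √(2 * ν) * lg (ν * κ) + 7 / 2 * (1 + √ν))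
        ≤ 8 * √κ * (7 + 3 / 2 * √ν * (3 / 2 * log (1 + ν * κ)) + 7 / 2 * (1 + √ν)) := by
      apply mul_le_mul_of_nonneg_left _ (by positivity)
      linarith
    have h7 : 8 * √κ * (7 + 3 / 2 * √ν * (3 / 2 * log (1 + ν * κ)) + 7 / 2 * (1 + √ν))
        + (40 * √κ + 2 * √κ)
        = √κ * (126 + √ν * (28 + 18 * log (1 + ν * κ))) := by ring
    have h8 : √κ * (126 + √ν * (28 + 18 * log (1 + ν * κ)))
        ≤ √κ * (130 * (1 + √ν * (1 + log (1 + ν * κ)))) := by
      apply mul_le_mul_of_nonneg_left _ hsκ.le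
      nlinarith [mul_nonneg hsν hlog]
    linarith
  · refine lt_of_le_of_lt (le_of_eq ?_) y5
    refine Finset.sum_congr rfl fun t _ => ?_
    change (if ∀ v ∈ A t, |y v| < 1 then om t else 0)
      = if ∀ v ∈ A t, |y v| < 1 then
        om t * exp (-(ν * (κ / 2) * (A t).card)) * exp (ν * (κ / 2) * (A t).card) else 0
    split_ifs
    · rw [mul_assoc, ← exp_add]
      simp
    · rfl

/-- the same with the last conclusion for finite sets of tests -/
theorem walk' (c : J → V → ℝ) {T κ ν al L : ℝ} (hcol : ∀ i, ∑ j, c j i ^ 2 ≤ T)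
    (hc : ∀ j i, c j i ^ 2 ≤ 1) (hκ1 : 1 ≤ κ) (hκ : 24 * T ≤ κ) (hT : 0 ≤ T) (hν : 0 ≤ ν)
    (hν1 : ν ≤ 1) (hal : 0 ≤ al) (hL : 1 ≤ L) (hV : 8 * (Fintype.card V : ℝ) ≤ exp L)
    (hJ : 8 * (Fintype.card J : ℝ) ≤ exp L) (haL : 8 * al * L ^ 2 ≤ κ)
    (A : X → Finset V) (hA : ∀ t, Sepd c al (A t)) (om : X → ℝ) (hom : ∀ t, 0 ≤ om t)
    (hsum : ∑ t, om t * exp (-(ν * (κ / 2 - 6 * T) * (A t).card)) ≤ 1 / 4)
    {z : V → ℝ} (hz : ∀ i, |z i| ≤ 1) :
    ∃ y : V → ℝ, (∀ i, |y i| ≤ 1) ∧ (∀ i, |z i| = 1 → y i = z i) ∧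
      (∀ j, |∑ i, c j i * (y i - z i)| ≤ 130 * √κ * (1 + √ν * (1 + log (1 + ν * κ)))) ∧
      ∀ Y : Finset X, (∀ t ∈ Y, ∀ v ∈ A t, |y v| < 1) → ∑ t ∈ Y, om t < 1 := by
  obtain ⟨y, y1, y2, y3, y4⟩ := walk c hcol hc hκ1 hκ hT hν hν1 hal hL hV hJ haL A hA om hom
    hsum hz
  refine ⟨y, y1, y2, y3, fun Y hY => lt_of_le_of_lt ?_ y4⟩
  calc ∑ t ∈ Y, om t = ∑ t ∈ Y, (if ∀ v ∈ A t, |y v| < 1 then om t else 0) :=
        Finset.sum_congr rfl fun t ht => by rw [if_pos (hY t ht)]
    _ ≤ ∑ t, (if ∀ v ∈ A t, |y v| < 1 then om t else 0) := by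
        apply Finset.sum_le_sum_of_subset_of_nonneg (Finset.subset_univ _)
        intro t _ _
        split_ifs
        · exact hom t
        · exact le_refl _

end Pool.Agent.Helper78.BO
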